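import Pool.Agent.W5h52.UL.Defs

set_option autoImplicit false

/-!
# Proper closed subgroups of a connected compact group are null sets
-/

namespace Pool.Agent.W5h52.UL

open MeasureTheory Set Filter Topology Pointwise

theorem conn : S_CONN := by
  intro G _ _ _ _ _ _ _ _ _ μ _ _ K hK hKne
  by_contra hpos
  have h1 : (K : Set G) / (K : Set G) ∈ 𝓝 (1 : G) :=
    Measure.div_mem_nhds_one_of_haar_pos μ (K : Set G) hK.measurableSet (pos_iff_ne_zero.2 hpos)
  have h2 : (K : Set G) / (K : Set G) ⊆ (K : Set G) := by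
    rintro _ ⟨a, ha, b, hb, rfl⟩
    exact K.div_mem ha hb
  have h3 : IsOpen (K : Set G) := K.isOpen_of_mem_nhds (mem_of_superset h1 h2)
  have h4 : (K : Set G) = univ := IsClopen.eq_univ ⟨hK, h3⟩ ⟨1, K.one_mem⟩
  exact hKne (SetLike.coe_injective (by rw [h4, Subgroup.coe_top]))

end Pool.Agent.W5h52.UL
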