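import Pool.Agent.W5h52.UL.Defs

/-! (U1) von Neumann's lemma. -/

set_option autoImplicit false

open MeasureTheory Set Function Filter Topology

namespace Pool.Agent.W5h52.UL

namespace KeyAux

variable {B : Type} [NormedRing B]

/-- comparison of powers -/
theorem pow_sub_pow_le (a b : B) (K : ℝ) (n : ℕ) (ha : ‖a‖ ≤ 1) (hb : ∀ j, j ≤ n → ‖b ^ j‖ ≤ K) :
    ∀ m, m ≤ n → ‖a ^ m - b ^ m‖ ≤ m * (‖a - b‖ * K) := by
  intro m
  induction m with
  | zero => intro _; simp
  | succ m ih =>
    intro hm
    have e : a ^ (m + 1) - b ^ (m + 1) = a * (a ^ m - b ^ m) + (a - b) * b ^ m := by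
      rw [pow_succ' a, pow_succ' b]
      noncomm_ring
    have h1 : ‖a * (a ^ m - b ^ m)‖ ≤ 1 * (m * (‖a - b‖ * K)) :=
      (norm_mul_le _ _).trans (mul_le_mul ha (ih (by omega)) (norm_nonneg _) zero_le_one)
    have h2 : ‖(a - b) * b ^ m‖ ≤ ‖a - b‖ * K :=
      (norm_mul_le _ _).trans (mul_le_mul_of_nonneg_left (hb m (by omega)) (norm_nonneg _))
    rw [e]
    refine (norm_add_le _ _).trans ?_
    push_cast
    linarith

end KeyAux

open KeyAux

theorem key : S_KEY := by
  intro E _ _ _ H hH y c Z hy hc hlim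
  letI : NormedAlgebra ℚ (E →L[ℝ] E) := NormedAlgebra.restrictScalars ℚ ℝ (E →L[ℝ] E)
  have hclosed := hH.closed
  have hexp0 : ∀ t : ℝ, 0 ≤ t → NormedSpace.exp (t • Z) ∈ H := by
    intro t ht
    -- powers stay in `H`
    have hpow : ∀ a ∈ H, ∀ n : ℕ, a ^ n ∈ H := by
      intro a ha n
      induction n with
      | zero => simpa using hH.one
      | succ n ih => rw [pow_succ]; exact hH.mul _ ih _ ha
    have hnorm : ∀ a ∈ H, ‖a‖ ≤ 1 := fun a ha =>
      ContinuousLinearMap.opNorm_le_bound _ zero_le_one fun x => by rw [hH.iso a ha x, one_mul]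
    set n : ℕ → ℕ := fun k => ⌊t * c k⌋₊ with hn
    have hcpos : ∀ᶠ k in atTop, 0 < c k := hc.eventually_gt_atTop 0
    have hinv : Tendsto (fun k => (c k)⁻¹) atTop (𝓝[≠] 0) := by
      rw [tendsto_nhdsWithin_iff]
      exact ⟨tendsto_inv_atTop_zero.comp hc, hcpos.mono fun k hk => (inv_pos.2 hk).ne'⟩
    -- derivative of the exponential at `0`
    have hder : Tendsto (fun k => c k • (NormedSpace.exp ((c k)⁻¹ • Z) - 1)) atTop (𝓝 Z) := by
      have h1 := hasDerivAt_exp_smul_const (𝕂 := ℝ) Z (0 : ℝ)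
      rw [zero_smul, NormedSpace.exp_zero, one_mul] at h1
      have h2 := (hasDerivAt_iff_tendsto_slope_zero.1 h1).comp hinv
      refine h2.congr fun k => ?_
      simp [Function.comp]
    have hdiff : Tendsto (fun k => c k • (y k - NormedSpace.exp ((c k)⁻¹ • Z))) atTop (𝓝 0) := by
      have := hlim.sub hder
      rw [sub_self] at this
      refine this.congr fun k => ?_
      rw [← smul_sub]
      congr 1
      abel
    -- the powers of the exponentials
    have hratio : Tendsto (fun k => (n k : ℝ) * (c k)⁻¹) atTop (𝓝 t) := by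
      have := (tendsto_nat_floor_mul_div_atTop ht).comp hc
      refine this.congr fun k => ?_
      simp [hn, Function.comp, div_eq_mul_inv]
    have hexpow : ∀ k, NormedSpace.exp ((c k)⁻¹ • Z) ^ n k =
        NormedSpace.exp (((n k : ℝ) * (c k)⁻¹) • Z) := by
      intro k
      rw [← NormedSpace.exp_nsmul, mul_smul, Nat.cast_smul_eq_nsmul ℝ]
    have hconv : Tendsto (fun k => NormedSpace.exp (((n k : ℝ) * (c k)⁻¹) • Z)) atTop
        (𝓝 (NormedSpace.exp (t • Z))) :=
      (NormedSpace.exp_continuous.tendsto (t • Z)).comp (hratio.smul_const Z)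
    obtain ⟨K, hKb⟩ := (isCompact_Icc (a := (0 : ℝ)) (b := t)).exists_bound_of_continuousOn
      (f := fun s : ℝ => NormedSpace.exp (s • Z))
      (NormedSpace.exp_continuous.comp (continuous_id.smul continuous_const)).continuousOn
    have hK0 : 0 ≤ K := (norm_nonneg _).trans (hKb 0 ⟨le_rfl, ht⟩)
    -- difference of the powers
    have hzero : Tendsto (fun k => y k ^ n k - NormedSpace.exp ((c k)⁻¹ • Z) ^ n k) atTop
        (𝓝 0) := by
      have hb : ∀ᶠ k in atTop, ‖y k ^ n k - NormedSpace.exp ((c k)⁻¹ • Z) ^ n k‖ ≤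
          (t * K) * ‖c k • (y k - NormedSpace.exp ((c k)⁻¹ • Z))‖ := by
        filter_upwards [hcpos] with k hk
        have hnk : (n k : ℝ) ≤ t * c k := Nat.floor_le (by positivity)
        have hK : ∀ j, j ≤ n k → ‖NormedSpace.exp ((c k)⁻¹ • Z) ^ j‖ ≤ K := by
          intro j hj
          rw [← NormedSpace.exp_nsmul, ← Nat.cast_smul_eq_nsmul ℝ, smul_smul]
          refine hKb _ ⟨by positivity, ?_⟩
          have hj' : (j : ℝ) ≤ t * c k := le_trans (by exact_mod_cast hj) hnk
          calc (j : ℝ) * (c k)⁻¹ ≤ (t * c k) * (c k)⁻¹ := by gcongr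
            _ = t := by field_simp
        have h1 := pow_sub_pow_le (y k) (NormedSpace.exp ((c k)⁻¹ • Z)) K (n k)
          (hnorm _ (hy k)) hK (n k) le_rfl
        refine h1.trans ?_
        rw [norm_smul, Real.norm_of_nonneg hk.le]
        calc (n k : ℝ) * (‖y k - NormedSpace.exp ((c k)⁻¹ • Z)‖ * K)
            ≤ (t * c k) * (‖y k - NormedSpace.exp ((c k)⁻¹ • Z)‖ * K) := by
              gcongr
          _ = _ := by ring
      have h0 : Tendsto (fun k => (t * K) *
          ‖c k • (y k - NormedSpace.exp ((c k)⁻¹ • Z))‖) atTop (𝓝 0) := by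
        have := (hdiff.norm).const_mul (t * K)
        simpa using this
      exact squeeze_zero_norm' hb h0
    have hfin : Tendsto (fun k => y k ^ n k) atTop (𝓝 (NormedSpace.exp (t • Z))) := by
      have := hzero.add hconv
      rw [zero_add] at this
      refine this.congr fun k => ?_
      rw [← hexpow k, sub_add_cancel]
    exact hclosed.mem_of_tendsto hfin (Eventually.of_forall fun k => hpow _ (hy k) _)
  intro t
  rcases le_total 0 t with ht | ht
  · exact hexp0 t ht
  · obtain ⟨b, hb, h1, h2⟩ := hH.inv _ (hexp0 (-t) (by linarith))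
    have h3 : NormedSpace.exp (t • Z) * NormedSpace.exp ((-t) • Z) = 1 := by
      have hc : Commute (t • Z) ((-t) • Z) := by
        rw [neg_smul]
        exact (Commute.refl (t • Z)).neg_right
      rw [← NormedSpace.exp_add_of_commute hc, neg_smul, add_neg_cancel, NormedSpace.exp_zero]
    have h4 : NormedSpace.exp (t • Z) = b := left_inv_eq_right_inv h3 h1
    rw [h4]
    exact hb

end Pool.Agent.W5h52.UL
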