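import Pool.Agent.W5h52.UL.Slice

/-! (U3b) -/

open MeasureTheory Set Function Filter Topology

namespace Pool.Agent.W5h52.UL

theorem loc : S_LOC1 → S_LOC := by
  intro h1 E _ _ _ H hH v
  obtain ⟨C, hC, hloc⟩ := h1 E H hH v
  refine ⟨C, hC, fun ε hε => ?_⟩
  obtain ⟨δ1, hδ1, hl⟩ := hloc ε hε
  have key : ∃ δ : ℝ, 0 < δ ∧ ∀ y ∈ H, ‖y v - v‖ < δ → ∃ h ∈ H, h v = v ∧ ‖y - h‖ < δ1 := by
    by_contra hcon
    push Not at hcon
    have hch : ∀ n : ℕ, ∃ y ∈ H, ‖y v - v‖ < 1 / ((n : ℝ) + 1) ∧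
        ∀ h ∈ H, h v = v → δ1 ≤ ‖y - h‖ := fun n => hcon _ (by positivity)
    choose y hy hyv hyh using hch
    obtain ⟨y0, hy0, φ, hφ, hlim⟩ := hH.isCompact.tendsto_subseq hy
    have hv0 : y0 v = v := by
      have t1 : Tendsto (fun n => (y (φ n)) v) atTop (𝓝 (y0 v)) :=
        ((ContinuousLinearMap.apply ℝ E v).continuous.tendsto y0).comp hlim
      have t2 : Tendsto (fun n => (y (φ n)) v - v) atTop (𝓝 0) := by
        rw [tendsto_zero_iff_norm_tendsto_zero]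
        refine squeeze_zero (fun _ => norm_nonneg _) (fun n => (hyv (φ n)).le) ?_
        exact (tendsto_one_div_add_atTop_nhds_zero_nat (𝕜 := ℝ)).comp hφ.tendsto_atTop
      have t3 : Tendsto (fun n => (y (φ n)) v - v) atTop (𝓝 (y0 v - v)) := t1.sub_const v
      exact sub_eq_zero.mp (tendsto_nhds_unique t3 t2)
    have t4 : Tendsto (fun n => ‖y (φ n) - y0‖) atTop (𝓝 0) := by
      have := (hlim.sub_const y0).norm
      simpa using this
    obtain ⟨n, hn⟩ := (t4.eventually (gt_mem_nhds hδ1)).exists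
    exact absurd hn (not_lt.mpr (hyh (φ n) y0 hy0 hv0))
  obtain ⟨δ, hδ, hk⟩ := key
  refine ⟨δ, hδ, fun y hy hyv => ?_⟩
  obtain ⟨h, hh, hhv, hyh⟩ := hk y hy hyv
  obtain ⟨h', hh', e1, e2⟩ := hH.inv h hh
  have hv' : h' v = v := by
    have := congrArg (fun T : E →L[ℝ] E => T v) e2
    have h3 : h' (h v) = v := by simpa using this
    rwa [hhv] at h3
  have hn : ‖y * h' - 1‖ < δ1 := by
    have : y * h' - 1 = (y - h) * h' := by rw [sub_mul, e1]
    rw [this]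
    refine lt_of_le_of_lt (norm_mul_le _ _) ?_
    have hle : ‖h'‖ ≤ 1 := ContinuousLinearMap.opNorm_le_bound _ zero_le_one fun x => by
      rw [hH.iso h' hh' x, one_mul]
    calc ‖y - h‖ * ‖h'‖ ≤ ‖y - h‖ * 1 := by gcongr
      _ < δ1 := by rw [mul_one]; exact hyh
  obtain ⟨Z, hZ, hZ1, hZ2, hZ3⟩ := hl (y * h') (hH.mul _ hy _ hh') hn
  refine ⟨Z, hZ, hZ1, hZ2, ?_⟩
  rw [hZ3]
  show y (h' v) = y v
  rw [hv']

end Pool.Agent.W5h52.UL
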