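import Pool.Agent.W5h52.UL.Defs

/-! (U3a) points of the orbit of `v` near `v`, for group elements near the identity. -/

open MeasureTheory Set Function Filter Topology

namespace Pool.Agent.W5h52.UL

theorem deriv_three {A : Type} [NormedRing A] [NormedAlgebra ℝ A] [CompleteSpace A]
    (a b c : A →L[ℝ] A) (h : ∀ W, a W + b W + c W = W) :
    HasStrictFDerivAt (fun W => NormedSpace.exp (a W) * NormedSpace.exp (b W) *
      NormedSpace.exp (c W)) ((ContinuousLinearEquiv.refl ℝ A : A ≃L[ℝ] A) : A →L[ℝ] A) 0 := by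
  have hex : ∀ c : A →L[ℝ] A,
      HasStrictFDerivAt (fun W => NormedSpace.exp (c W)) c 0 := fun c => by
    have h0 : HasStrictFDerivAt (NormedSpace.exp : A → A) (1 : A →L[ℝ] A) (c 0) := by
      rw [map_zero]; exact hasStrictFDerivAt_exp_zero
    have h1 := h0.comp (0 : A) c.hasStrictFDerivAt
    exact h1
  have h1 := ((hex a).mul' (hex b)).mul' (hex c)
  convert! h1 using 1
  refine ContinuousLinearMap.ext fun W => ?_
  change W = _
  conv_lhs => rw [← h W]
  simp [map_zero, NormedSpace.exp_zero]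
  abel

section
variable {E : Type} [NormedAddCommGroup E] [InnerProductSpace ℝ E] [FiniteDimensional ℝ E]

/-- `exp` of an operator which kills `v` fixes `v`. -/
theorem exp_fix {X : E →L[ℝ] E} {v : E} (h : X v = 0) : NormedSpace.exp X v = v := by
  have : CompleteSpace E := FiniteDimensional.complete ℝ E
  have h1 : HasSum (fun n : ℕ => ((n.factorial : ℝ)⁻¹) • X ^ n) (NormedSpace.exp X) :=
    NormedSpace.exp_series_hasSum_exp' (𝕂 := ℝ) X
  have h2 := (ContinuousLinearMap.apply ℝ E v).hasSum h1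
  have h3 : HasSum (fun n : ℕ => (ContinuousLinearMap.apply ℝ E v)
      (((n.factorial : ℝ)⁻¹) • X ^ n)) v := by
    have h4 : (fun n : ℕ => (ContinuousLinearMap.apply ℝ E v)
      (((n.factorial : ℝ)⁻¹) • X ^ n)) 0 = v := by simp
    have h5 := hasSum_single (f := fun n : ℕ => (ContinuousLinearMap.apply ℝ E v)
      (((n.factorial : ℝ)⁻¹) • X ^ n)) 0 (by
        intro n hn
        obtain ⟨m, rfl⟩ := Nat.exists_eq_succ_of_ne_zero hn
        simp [pow_succ, h])
    simp only at h4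
    rw [h4] at h5
    exact h5
  exact h2.unique h3

theorem exp_mul_exp_neg (X : E →L[ℝ] E) : NormedSpace.exp X * NormedSpace.exp (-X) = 1 := by
  have : CompleteSpace E := FiniteDimensional.complete ℝ E
  let _ : NormedAlgebra ℚ (E →L[ℝ] E) := NormedAlgebra.restrictScalars ℚ ℝ (E →L[ℝ] E)
  rw [← NormedSpace.exp_add_of_commute (Commute.neg_right (Commute.refl X)), add_neg_cancel,
    NormedSpace.exp_zero]

theorem exp_neg_mul_exp (X : E →L[ℝ] E) : NormedSpace.exp (-X) * NormedSpace.exp X = 1 := by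
  have := exp_mul_exp_neg (-X)
  rwa [neg_neg] at this

/-- a complement of `L`, near `0`, meets the group only at `0`. -/
theorem compl_small (hK : S_KEY) {H : Set (E →L[ℝ] E)} (hH : CG H)
    {L N : Submodule ℝ (E →L[ℝ] E)} (hL : (L : Set (E →L[ℝ] E)) = lie H) (hLN : Disjoint L N) :
    ∃ δ : ℝ, 0 < δ ∧ ∀ Y ∈ N, ‖Y‖ < δ → NormedSpace.exp Y ∈ H → Y = 0 := by
  have : CompleteSpace E := FiniteDimensional.complete ℝ E
  by_contra hcon
  push Not at hcon
  have h1 : ∀ k : ℕ, ∃ Y ∈ N, ‖Y‖ < 1 / ((k : ℝ) + 1) ∧ NormedSpace.exp Y ∈ H ∧ Y ≠ 0 := fun k =>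
    hcon _ (by positivity)
  choose Y hYN hY1 hYH hY0 using h1
  have hpos : ∀ k, 0 < ‖Y k‖ := fun k => norm_pos_iff.mpr (hY0 k)
  -- compactness of the unit sphere
  obtain ⟨U, hU, φ, hφ, hlim⟩ := (isCompact_sphere (0 : E →L[ℝ] E) 1).tendsto_subseq
    (x := fun k => (‖Y k‖⁻¹ : ℝ) • Y k) (fun k => by
      rw [mem_sphere_zero_iff_norm, norm_smul, norm_inv, norm_norm,
        inv_mul_cancel₀ (hpos k).ne'])
  have hUN : U ∈ N := by
    have hc : IsClosed (N : Set (E →L[ℝ] E)) := N.closed_of_finiteDimensional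
    refine hc.mem_of_tendsto hlim (Eventually.of_forall fun k => ?_)
    exact N.smul_mem _ (hYN _)
  have hY_zero : Tendsto Y atTop (𝓝 0) := by
    rw [tendsto_zero_iff_norm_tendsto_zero]
    exact squeeze_zero (fun k => norm_nonneg _) (fun k => (hY1 k).le)
      tendsto_one_div_add_atTop_nhds_zero_nat
  have hYφ : Tendsto (fun k => Y (φ k)) atTop (𝓝 0) := hY_zero.comp hφ.tendsto_atTop
  have hcinf : Tendsto (fun k => ‖Y (φ k)‖⁻¹) atTop atTop := by
    refine Tendsto.inv_tendsto_nhdsGT_zero ?_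
    rw [tendsto_nhdsWithin_iff]
    refine ⟨?_, Eventually.of_forall fun k => hpos _⟩
    have := hYφ.norm
    rwa [norm_zero] at this
  have hexp : (fun Z : E →L[ℝ] E => NormedSpace.exp Z - 1 - Z) =o[𝓝 0] fun Z => Z := by
    have h := (hasFDerivAt_exp_zero (𝕂 := ℝ) (𝔸 := E →L[ℝ] E)).isLittleO
    simpa using h
  have hexp2 := hexp.comp_tendsto hYφ
  have hdiff : Tendsto (fun k => (‖Y (φ k)‖⁻¹ : ℝ) • (NormedSpace.exp (Y (φ k)) - 1 - Y (φ k)))
      atTop (𝓝 0) := by
    have := hexp2.norm_right.norm_left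
    rw [Asymptotics.isLittleO_iff_tendsto' (Eventually.of_forall fun k h0 => by
      exact absurd h0 (hpos _).ne')] at this
    rw [tendsto_zero_iff_norm_tendsto_zero]
    refine this.congr fun k => ?_
    simp only [Function.comp_apply, norm_smul, norm_inv, norm_norm]
    rw [div_eq_inv_mul]
  have hUlie : U ∈ lie H := by
    refine hK E H hH (fun k => NormedSpace.exp (Y (φ k))) (fun k => ‖Y (φ k)‖⁻¹) U
      (fun k => hYH _) hcinf ?_
    have := hdiff.add hlim
    rw [zero_add] at this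
    refine this.congr fun k => ?_
    simp only [Function.comp_apply]
    rw [← smul_add, sub_add_cancel]
  have hUL : U ∈ L := by
    have : U ∈ (L : Set (E →L[ℝ] E)) := by rw [hL]; exact hUlie
    exact this
  have hU0 : U = 0 := by
    have := Submodule.disjoint_def.mp hLN U hUL hUN
    exact this
  rw [mem_sphere_zero_iff_norm, hU0, norm_zero] at hU
  exact zero_ne_one hU

end

theorem loc1 : S_KEY → S_SUBM → S_LOC1 := by
  intro hKey hSub E _ _ _ H hH v
  have : CompleteSpace E := FiniteDimensional.complete ℝ E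
  let _ : NormedAlgebra ℚ (E →L[ℝ] E) := NormedAlgebra.restrictScalars ℚ ℝ (E →L[ℝ] E)
  obtain ⟨L, hL⟩ := hSub E H hH
  have hLmem : ∀ {Z}, Z ∈ L → Z ∈ lie H := fun {Z} h => by rw [← hL]; exact h
  -- evaluation at `v`
  let ev : (E →L[ℝ] E) →L[ℝ] E := ContinuousLinearMap.apply ℝ E v
  have hev : ∀ Z, ev Z = Z v := fun Z => rfl
  let K : Submodule ℝ (E →L[ℝ] E) := L ⊓ LinearMap.ker (ev : (E →L[ℝ] E) →ₗ[ℝ] E)
  have hKL : K ≤ L := inf_le_left
  have hKv : ∀ X ∈ K, X v = 0 := fun X hX => LinearMap.mem_ker.mp hX.2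
  obtain ⟨M', hM'⟩ := Submodule.exists_isCompl K
  obtain ⟨N, hN⟩ := Submodule.exists_isCompl L
  let M : Submodule ℝ (E →L[ℝ] E) := M' ⊓ L
  -- the projections
  let P : (E →L[ℝ] E) →L[ℝ] (E →L[ℝ] E) := LinearMap.toContinuousLinearMap (L.projection N hN)
  let Q : (E →L[ℝ] E) →L[ℝ] (E →L[ℝ] E) := LinearMap.toContinuousLinearMap (K.projection M' hM')
  have hP : ∀ W, P W ∈ L := fun W => Submodule.projection_apply_mem hN W
  have hP' : ∀ W, W - P W ∈ N := fun W => Submodule.sub_projection_mem hN W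
  have hQ : ∀ W, Q W ∈ K := fun W => Submodule.projection_apply_mem hM' W
  have hQ' : ∀ W, W - Q W ∈ M' := fun W => Submodule.sub_projection_mem hM' W
  let cX : (E →L[ℝ] E) →L[ℝ] (E →L[ℝ] E) := Q.comp P
  let cZ : (E →L[ℝ] E) →L[ℝ] (E →L[ℝ] E) := P - Q.comp P
  let cY : (E →L[ℝ] E) →L[ℝ] (E →L[ℝ] E) := ContinuousLinearMap.id ℝ _ - P
  have hcX : ∀ W, cX W ∈ K := fun W => hQ _
  have hcZ : ∀ W, cZ W ∈ M := fun W => ⟨hQ' _, L.sub_mem (hP _) (hKL (hQ _))⟩
  have hcY : ∀ W, cY W ∈ N := fun W => hP' _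
  have hsum : ∀ W, cZ W + cY W + cX W = W := fun W => by
    simp only [cZ, cY, cX, sub_apply, ContinuousLinearMap.comp_apply,
      ContinuousLinearMap.id_apply]
    abel
  have hF := deriv_three cZ cY cX hsum
  have hmap := hF.map_nhds_eq_of_equiv
  simp only [map_zero, NormedSpace.exp_zero, mul_one] at hmap
  obtain ⟨δ₁, hδ₁, hsmall⟩ := compl_small hKey hH hL hN.disjoint
  -- the constant
  let g : M →ₗ[ℝ] E := (ev : (E →L[ℝ] E) →ₗ[ℝ] E) ∘ₗ M.subtype
  have hg : LinearMap.ker g = ⊥ := by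
    rw [LinearMap.ker_eq_bot']
    intro Z hZ
    have h1 : (Z : E →L[ℝ] E) ∈ K := ⟨Z.2.2, LinearMap.mem_ker.mpr hZ⟩
    have h2 := Submodule.disjoint_def.mp hM'.disjoint _ h1 Z.2.1
    exact Subtype.ext h2
  obtain ⟨C, hC0, hC⟩ := LinearMap.exists_antilipschitzWith (𝕜 := ℝ) (E := M) (F := E) g hg
  refine ⟨C, by exact_mod_cast hC0, fun ε hε => ?_⟩
  -- the neighbourhood
  have hnb : {W : E →L[ℝ] E | ‖cY W‖ < δ₁ ∧ ‖cZ W‖ < ε} ∈ 𝓝 (0 : E →L[ℝ] E) := by
    have h1 : Tendsto (fun W => ‖cY W‖) (𝓝 0) (𝓝 0) := by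
      have := (cY.continuous.tendsto 0).norm
      rwa [map_zero, norm_zero] at this
    have h2 : Tendsto (fun W => ‖cZ W‖) (𝓝 0) (𝓝 0) := by
      have := (cZ.continuous.tendsto 0).norm
      rwa [map_zero, norm_zero] at this
    exact (h1.eventually (gt_mem_nhds hδ₁)).and (h2.eventually (gt_mem_nhds hε))
  have himg := Filter.image_mem_map (m := fun W => NormedSpace.exp (cZ W) *
    NormedSpace.exp (cY W) * NormedSpace.exp (cX W)) hnb
  rw [hmap, Metric.mem_nhds_iff] at himg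
  obtain ⟨δ, hδ, hball⟩ := himg
  refine ⟨δ, hδ, fun y hy hyδ => ?_⟩
  obtain ⟨W, ⟨hW1, hW2⟩, hW⟩ := hball (by rwa [Metric.mem_ball, dist_eq_norm])
  simp only at hW
  have hlie : ∀ {Z}, Z ∈ L → NormedSpace.exp Z ∈ H := fun {Z} hZ => by
    have := hLmem hZ 1
    rwa [one_smul] at this
  have hYH : NormedSpace.exp (cY W) ∈ H := by
    have h1 : NormedSpace.exp (cY W) =
        NormedSpace.exp (-(cZ W)) * y * NormedSpace.exp (-(cX W)) := by
      rw [← hW]
      calc NormedSpace.exp (cY W) = 1 * NormedSpace.exp (cY W) * 1 := by rw [one_mul, mul_one]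
        _ = (NormedSpace.exp (-(cZ W)) * NormedSpace.exp (cZ W)) * NormedSpace.exp (cY W) *
            (NormedSpace.exp (cX W) * NormedSpace.exp (-(cX W))) := by
              rw [exp_neg_mul_exp, exp_mul_exp_neg]
        _ = _ := by simp only [mul_assoc]
    rw [h1]
    exact hH.mul _ (hH.mul _ (hlie (L.neg_mem (hcZ W).2)) _ hy) _ (hlie (L.neg_mem (hKL (hcX W))))
  have hY0 := hsmall _ (hcY W) hW1 hYH
  refine ⟨cZ W, hLmem (hcZ W).2, hW2, ?_, ?_⟩
  · have := hC.le_mul_dist (⟨cZ W, hcZ W⟩ : M) 0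
    rw [dist_zero_right, map_zero, dist_zero_right] at this
    exact this
  · rw [← hW, hY0, NormedSpace.exp_zero, mul_one, mul_apply_eq_comp,
      exp_fix (hKv _ (hcX W))]

end Pool.Agent.W5h52.UL
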