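import Pool.Agent.W5h52.UL.Defs

/-! (U6) the union of the conjugates of `S × S` is a null set. -/

set_option autoImplicit false

open MeasureTheory Set Function Filter Topology Metric

namespace Pool.Agent.W5h52.UL

/-- A finite set which is maximal with a property of bounded size. -/
theorem nl_exists_max {G : Type} [DecidableEq G] (Q : Finset G → Prop) (h0 : Q ∅) (N : ℕ)
    (hN : ∀ F, Q F → F.card ≤ N) : ∃ F, Q F ∧ ∀ x, x ∉ F → ¬ Q (insert x F) := by
  by_contra hcon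
  push Not at hcon
  have h : ∀ n : ℕ, ∃ F, Q F ∧ n ≤ F.card := by
    intro n
    induction n with
    | zero => exact ⟨∅, h0, Nat.zero_le _⟩
    | succ n ih =>
      obtain ⟨F, hF, hn⟩ := ih
      obtain ⟨x, hx, hQ⟩ := hcon F hF
      refine ⟨insert x F, hQ, ?_⟩
      rw [Finset.card_insert_of_notMem hx]
      omega
  obtain ⟨F, hF, hn⟩ := h (N + 1)
  have := hN F hF
  omega

section
variable {G : Type} [Group G] {E : Type} [NormedAddCommGroup E] [InnerProductSpace ℝ E]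
  (ρ : G →* (E →L[ℝ] E))

theorem nl_left (hi : ∀ g x, ‖ρ g x‖ = ‖x‖) (g x y : G) :
    ‖ρ (g * x) - ρ (g * y)‖ = ‖ρ x - ρ y‖ := by
  apply ContinuousLinearMap.opNorm_ext
  intro w
  rw [map_mul, map_mul, ← mul_sub, ContinuousLinearMap.mul_apply, hi]

theorem nl_right_le (hi : ∀ g x, ‖ρ g x‖ = ‖x‖) (g x y : G) :
    ‖ρ (x * g) - ρ (y * g)‖ ≤ ‖ρ x - ρ y‖ := by
  apply ContinuousLinearMap.opNorm_le_bound _ (norm_nonneg _)
  intro w
  rw [map_mul, map_mul, ← sub_mul, ContinuousLinearMap.mul_apply]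
  calc ‖(ρ x - ρ y) (ρ g w)‖ ≤ ‖ρ x - ρ y‖ * ‖ρ g w‖ := ContinuousLinearMap.le_opNorm _ _
    _ = ‖ρ x - ρ y‖ * ‖w‖ := by rw [hi]

theorem nl_right (hi : ∀ g x, ‖ρ g x‖ = ‖x‖) (g x y : G) :
    ‖ρ (x * g) - ρ (y * g)‖ = ‖ρ x - ρ y‖ := by
  apply le_antisymm (nl_right_le ρ hi g x y)
  have h := nl_right_le ρ hi g⁻¹ (x * g) (y * g)
  simpa using h

theorem nl_inv (hi : ∀ g x, ‖ρ g x‖ = ‖x‖) (x y : G) :
    ‖ρ x⁻¹ - ρ y⁻¹‖ = ‖ρ x - ρ y‖ := by
  rw [← nl_left ρ hi x x⁻¹ y⁻¹, ← nl_right ρ hi y (x * x⁻¹) (x * y⁻¹)]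
  have e1 : x * x⁻¹ * y = y := by group
  have e2 : x * y⁻¹ * y = x := by group
  rw [e1, e2, norm_sub_rev]

/-- balls of the pseudo-metric -/
def nb (x : G) (r : ℝ) : Set G := {y | ‖ρ y - ρ x‖ < r}

variable [TopologicalSpace G] [IsTopologicalGroup G] [MeasurableSpace G] [BorelSpace G]

theorem nb_open (hc : Continuous ρ) (x : G) (r : ℝ) : IsOpen (nb ρ x r) :=
  isOpen_lt (hc.sub continuous_const).norm continuous_const

theorem nb_measure (hi : ∀ g x, ‖ρ g x‖ = ‖x‖) (μ : Measure G) [μ.IsMulLeftInvariant] (x : G)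
    (r : ℝ) : μ (nb ρ x r) = μ (nb ρ 1 r) := by
  have h : nb ρ x r = (fun y => x⁻¹ * y) ⁻¹' (nb ρ 1 r) := by
    ext y
    change ‖ρ y - ρ x‖ < r ↔ ‖ρ (x⁻¹ * y) - ρ 1‖ < r
    have h1 := nl_left ρ hi x⁻¹ y x
    rw [inv_mul_cancel] at h1
    rw [h1]
  rw [h, measure_preimage_mul]

/-- packing -/
theorem nb_pack (hc : Continuous ρ) (hi : ∀ g x, ‖ρ g x‖ = ‖x‖) (μ : Measure G)
    [μ.IsMulLeftInvariant] {ι : Type} (I : Finset ι) (p : ι → G) (ε : ℝ)
    (h : ∀ i ∈ I, ∀ j ∈ I, i ≠ j → ε ≤ ‖ρ (p i) - ρ (p j)‖) (U : Set G)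
    (hU : ∀ i ∈ I, nb ρ (p i) (ε / 2) ⊆ U) :
    (I.card : ENNReal) * μ (nb ρ 1 (ε / 2)) ≤ μ U := by
  have hd : PairwiseDisjoint (I : Set ι) (fun i => nb ρ (p i) (ε / 2)) := by
    intro i hi' j hj hij
    rw [Function.onFun, Set.disjoint_left]
    intro y hy hy'
    change ‖ρ y - ρ (p i)‖ < ε / 2 at hy
    change ‖ρ y - ρ (p j)‖ < ε / 2 at hy'
    have h1 := h i hi' j hj hij
    have h2 : ‖ρ (p i) - ρ (p j)‖ ≤ ‖ρ y - ρ (p i)‖ + ‖ρ y - ρ (p j)‖ := by
      have e : ρ (p i) - ρ (p j) = (ρ y - ρ (p j)) - (ρ y - ρ (p i)) := by abel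
      rw [e]
      exact (norm_sub_le _ _).trans (le_of_eq (add_comm _ _))
    linarith
  calc (I.card : ENNReal) * μ (nb ρ 1 (ε / 2)) = ∑ i ∈ I, μ (nb ρ (p i) (ε / 2)) := by
        rw [Finset.sum_congr rfl fun i _ => nb_measure ρ hi μ (p i) (ε / 2), Finset.sum_const,
          nsmul_eq_mul]
    _ = μ (⋃ i ∈ I, nb ρ (p i) (ε / 2)) :=
        (measure_biUnion_finset hd fun i _ => (nb_open ρ hc _ _).measurableSet).symm
    _ ≤ μ U := measure_mono (iUnion₂_subset hU)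

/-- doubling -/
theorem nb_double [FiniteDimensional ℝ E] (hi : ∀ g x, ‖ρ g x‖ = ‖x‖) (μ : Measure G)
    [μ.IsMulLeftInvariant] :
    ∃ C : ℕ, ∀ ε : ℝ, 0 < ε → μ (nb ρ 1 (3 * ε)) ≤ C * μ (nb ρ 1 (ε / 2)) := by
  have : ProperSpace (E →L[ℝ] E) := FiniteDimensional.proper ℝ _
  obtain ⟨t, -, htf, ht⟩ := finite_cover_balls_of_compact
    (isCompact_closedBall (0 : E →L[ℝ] E) 1) (show (0 : ℝ) < 1 / 12 by norm_num)
  refine ⟨htf.toFinset.card, fun ε hε => ?_⟩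
  have h1 : nb ρ 1 (3 * ε) ⊆ ⋃ f ∈ htf.toFinset, {y | ‖ρ y - ρ 1 - (3 * ε) • f‖ < ε / 4} := by
    intro y hy
    change ‖ρ y - ρ 1‖ < 3 * ε at hy
    have h3 : 0 < 3 * ε := by positivity
    have h2 : (3 * ε)⁻¹ • (ρ y - ρ 1) ∈ closedBall (0 : E →L[ℝ] E) 1 := by
      rw [mem_closedBall, dist_zero_right, norm_smul, norm_inv, Real.norm_of_nonneg h3.le,
        inv_mul_le_iff₀ h3]
      linarith
    have h4 := ht h2
    simp only [mem_iUnion, mem_ball, dist_eq_norm] at h4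
    obtain ⟨f, hf, h5⟩ := h4
    simp only [mem_iUnion]
    refine ⟨f, htf.mem_toFinset.2 hf, ?_⟩
    change ‖ρ y - ρ 1 - (3 * ε) • f‖ < ε / 4
    have e : ρ y - ρ 1 - (3 * ε) • f = (3 * ε) • ((3 * ε)⁻¹ • (ρ y - ρ 1) - f) := by
      rw [smul_sub, smul_smul, mul_inv_cancel₀ h3.ne', one_smul]
    rw [e, norm_smul, Real.norm_of_nonneg h3.le]
    calc 3 * ε * ‖(3 * ε)⁻¹ • (ρ y - ρ 1) - f‖ < 3 * ε * (1 / 12) := by
          exact mul_lt_mul_of_pos_left h5 h3
      _ = ε / 4 := by ring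
  calc μ (nb ρ 1 (3 * ε)) ≤ μ (⋃ f ∈ htf.toFinset, {y | ‖ρ y - ρ 1 - (3 * ε) • f‖ < ε / 4}) :=
        measure_mono h1
    _ ≤ ∑ f ∈ htf.toFinset, μ {y | ‖ρ y - ρ 1 - (3 * ε) • f‖ < ε / 4} :=
        measure_biUnion_finset_le _ _
    _ ≤ ∑ f ∈ htf.toFinset, μ (nb ρ 1 (ε / 2)) := by
        refine Finset.sum_le_sum fun f _ => ?_
        by_cases hne : ({y | ‖ρ y - ρ 1 - (3 * ε) • f‖ < ε / 4} : Set G).Nonempty
        · obtain ⟨x, hx⟩ := hne
          change ‖ρ x - ρ 1 - (3 * ε) • f‖ < ε / 4 at hx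
          rw [← nb_measure ρ hi μ x]
          refine measure_mono fun y hy => ?_
          change ‖ρ y - ρ 1 - (3 * ε) • f‖ < ε / 4 at hy
          change ‖ρ y - ρ x‖ < ε / 2
          have e : ρ y - ρ x = (ρ y - ρ 1 - (3 * ε) • f) - (ρ x - ρ 1 - (3 * ε) • f) := by abel
          rw [e]
          calc _ ≤ _ := norm_sub_le _ _
            _ < ε / 4 + ε / 4 := add_lt_add hy hx
            _ = ε / 2 := by ring
        · rw [Set.not_nonempty_iff_eq_empty] at hne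
          rw [hne, measure_empty]
          exact zero_le
    _ = _ := by rw [Finset.sum_const, nsmul_eq_mul]

end

theorem null : S_NULL := by
  intro G _ _ _ _ _ _ _ _ μ _ _ E _ _ _ ρ hc hi v hS
  classical
  obtain ⟨C, hC⟩ := nb_double ρ hi μ
  set T : Set (G × G) := {z | ∃ g, ρ (g⁻¹ * z.1 * g) v = v ∧ ρ (g⁻¹ * z.2 * g) v = v} with hT
  -- the main inequality
  have main : ∀ ε : ℝ, 0 < ε → (μ.prod μ) T ≤
      (C : ENNReal) * C * μ {x | ‖ρ x v - v‖ ≤ ε / 2 * (‖v‖ + 1)} := by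
    intro ε hε
    set M := μ (nb ρ 1 (ε / 2)) with hM
    have hMpos : 0 < M := by
      exact (nb_open ρ hc 1 (ε / 2)).measure_pos μ
        ⟨1, by change ‖ρ 1 - ρ 1‖ < ε / 2; rw [sub_self, norm_zero]; positivity⟩
    -- bounds of the cardinalities
    obtain ⟨N, hN⟩ : ∃ N : ℕ, 1 / M ≤ N := by
      have h1 : 1 / M ≠ ⊤ := ENNReal.div_ne_top ENNReal.one_ne_top hMpos.ne'
      obtain ⟨N, hN⟩ := ENNReal.exists_nat_gt h1
      exact ⟨N, hN.le⟩
    have hMtop : M ≠ ⊤ := measure_ne_top _ _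
    have hcard : ∀ (F : Finset G), (∀ x ∈ F, ∀ y ∈ F, x ≠ y → ε ≤ ‖ρ x - ρ y‖) → F.card ≤ N := by
      intro F hF
      have h1 := nb_pack ρ hc hi μ F id ε hF univ (fun _ _ => subset_univ _)
      rw [measure_univ, ← hM] at h1
      have h2 : (F.card : ENNReal) ≤ 1 / M := by
        rw [ENNReal.le_div_iff_mul_le (Or.inl hMpos.ne') (Or.inl hMtop)]
        exact h1
      exact_mod_cast h2.trans hN
    obtain ⟨F, hF, hFmax⟩ := nl_exists_max (fun F : Finset G => (∀ x ∈ F, ρ x v = v) ∧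
      ∀ x ∈ F, ∀ y ∈ F, x ≠ y → ε ≤ ‖ρ x - ρ y‖) ⟨by simp, by simp⟩ N
      (fun F hF => hcard F hF.2)
    obtain ⟨I, hI, hImax⟩ := nl_exists_max (fun F : Finset G =>
      ∀ x ∈ F, ∀ y ∈ F, x ≠ y → ∀ s s' : G, ρ s v = v → ρ s' v = v →
        ε ≤ ‖ρ (x * s) - ρ (y * s')‖) (by simp) N
      (fun F hF => hcard F fun x hx y hy hxy => by
        have := hF x hx y hy hxy 1 1 (by simp) (by simp)
        simpa using this)
    -- the covers
    have hcovS : ∀ s, ρ s v = v → ∃ h ∈ F, ‖ρ s - ρ h‖ < ε := by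
      intro s hs
      by_contra hcon
      push Not at hcon
      have hsF : s ∉ F := by
        intro h
        have := hcon s h
        rw [sub_self, norm_zero] at this
        linarith
      apply hFmax s hsF
      refine ⟨?_, ?_⟩
      · intro x hx
        rcases Finset.mem_insert.1 hx with rfl | hx
        · exact hs
        · exact hF.1 x hx
      · intro x hx y hy hxy
        rcases Finset.mem_insert.1 hx with hx' | hx' <;>
          rcases Finset.mem_insert.1 hy with hy' | hy'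
        · exact absurd (hx'.trans hy'.symm) hxy
        · rw [hx']; exact hcon y hy'
        · rw [hy', norm_sub_rev]; exact hcon x hx'
        · exact hF.2 x hx' y hy' hxy
    have hcovI : ∀ g : G, ∃ i ∈ I, ∃ s s' : G, ρ s v = v ∧ ρ s' v = v ∧
        ‖ρ (g * s) - ρ (i * s')‖ < ε := by
      intro g
      by_contra hcon
      push Not at hcon
      have hgI : g ∉ I := by
        intro h
        have := hcon g h 1 1 (by simp) (by simp)
        rw [sub_self, norm_zero] at this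
        linarith
      apply hImax g hgI
      intro x hx y hy hxy s s' hs hs'
      rcases Finset.mem_insert.1 hx with hx' | hx' <;>
        rcases Finset.mem_insert.1 hy with hy' | hy'
      · exact absurd (hx'.trans hy'.symm) hxy
      · rw [hx']; exact hcon y hy' s s' hs hs'
      · rw [hy', norm_sub_rev]; exact hcon x hx' s' s hs' hs
      · exact hI x hx' y hy' hxy s s' hs hs'
    -- stabiliser is a group
    have hmul : ∀ a b : G, ρ a v = v → ρ b v = v → ρ (a * b) v = v := by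
      intro a b ha hb
      rw [map_mul, ContinuousLinearMap.mul_apply, hb, ha]
    have hinv : ∀ a : G, ρ a v = v → ρ a⁻¹ v = v := by
      intro a ha
      conv_lhs => rw [← ha]
      rw [← ContinuousLinearMap.mul_apply, ← map_mul, inv_mul_cancel, map_one,
        ContinuousLinearMap.one_apply]
    -- conjugates
    have hconj : ∀ (g i s s' a : G), ρ s v = v → ρ s' v = v →
        ‖ρ (g * s) - ρ (i * s')‖ < ε → ρ (g⁻¹ * a * g) v = v →
        ∃ h ∈ F, a ∈ nb ρ (i * h * i⁻¹) (3 * ε) := by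
      intro g i s s' a hs hs' hgi ha
      set k := g * s * s'⁻¹ with hk
      have hki : ‖ρ k - ρ i‖ < ε := by
        have h1 := nl_right ρ hi s'⁻¹ (g * s) (i * s')
        rw [mul_inv_cancel_right] at h1
        rw [hk, h1]
        exact hgi
      set t := k⁻¹ * a * k with ht
      have htv : ρ t v = v := by
        have e : t = s' * (s⁻¹ * ((g⁻¹ * a * g) * (s * s'⁻¹))) := by
          rw [ht, hk]; group
        rw [e]
        exact hmul _ _ hs' (hmul _ _ (hinv _ hs) (hmul _ _ ha (hmul _ _ hs (hinv _ hs'))))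
      obtain ⟨h, hh, hth⟩ := hcovS t htv
      refine ⟨h, hh, ?_⟩
      change ‖ρ a - ρ (i * h * i⁻¹)‖ < 3 * ε
      have e : a = k * t * k⁻¹ := by rw [ht]; group
      have h1 : ‖ρ (k * t * k⁻¹) - ρ (i * t * k⁻¹)‖ < ε := by
        rw [nl_right ρ hi, nl_right ρ hi]; exact hki
      have h2 : ‖ρ (i * t * k⁻¹) - ρ (i * h * k⁻¹)‖ < ε := by
        rw [nl_right ρ hi, nl_left ρ hi]; exact hth
      have h3 : ‖ρ (i * h * k⁻¹) - ρ (i * h * i⁻¹)‖ < ε := by
        rw [nl_left ρ hi, nl_inv ρ hi]; exact hki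
      rw [e]
      have e2 : ρ (k * t * k⁻¹) - ρ (i * h * i⁻¹) = (ρ (k * t * k⁻¹) - ρ (i * t * k⁻¹)) +
          (ρ (i * t * k⁻¹) - ρ (i * h * k⁻¹)) + (ρ (i * h * k⁻¹) - ρ (i * h * i⁻¹)) := by abel
      rw [e2]
      calc _ ≤ _ := norm_add₃_le
        _ < ε + ε + ε := by linarith
        _ = 3 * ε := by ring
    have hTsub : T ⊆ ⋃ q ∈ I ×ˢ (F ×ˢ F),
        nb ρ (q.1 * q.2.1 * q.1⁻¹) (3 * ε) ×ˢ nb ρ (q.1 * q.2.2 * q.1⁻¹) (3 * ε) := by
      rintro ⟨a, b⟩ ⟨g, ha, hb⟩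
      obtain ⟨i, hiI, s, s', hs, hs', hgi⟩ := hcovI g
      obtain ⟨h, hh, h1⟩ := hconj g i s s' a hs hs' hgi ha
      obtain ⟨h', hh', h2⟩ := hconj g i s s' b hs hs' hgi hb
      rw [mem_iUnion₂]
      refine ⟨(i, h, h'), ?_, ?_⟩
      · simp only [Finset.mem_product]
        exact ⟨hiI, hh, hh'⟩
      · exact ⟨h1, h2⟩
    have hnk : (I.card : ENNReal) * F.card * M ≤ 1 := by
      have h1 := nb_pack ρ hc hi μ (I ×ˢ F) (fun q => q.1 * q.2) ε (by
        rintro ⟨i, h⟩ hq ⟨i', h'⟩ hq' hne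
        rw [Finset.mem_product] at hq hq'
        by_cases hii : i = i'
        · subst hii
          change ε ≤ ‖ρ (i * h) - ρ (i * h')‖
          rw [nl_left ρ hi]
          exact hF.2 h hq.2 h' hq'.2 (fun e => hne (by rw [e]))
        · exact hI i hq.1 i' hq'.1 hii h h' (hF.1 h hq.2) (hF.1 h' hq'.2)) univ
        (fun _ _ => subset_univ _)
      rw [measure_univ, ← hM, Finset.card_product, Nat.cast_mul] at h1
      exact h1
    have hkM : (F.card : ENNReal) * M ≤ μ {x | ‖ρ x v - v‖ ≤ ε / 2 * (‖v‖ + 1)} := by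
      refine nb_pack ρ hc hi μ F id ε hF.2 _ fun h hh y hy => ?_
      change ‖ρ y - ρ h‖ < ε / 2 at hy
      change ‖ρ y v - v‖ ≤ ε / 2 * (‖v‖ + 1)
      have e : ρ y v - v = (ρ y - ρ h) v := by
        rw [ContinuousLinearMap.sub_apply, hF.1 h hh]
      rw [e]
      calc ‖(ρ y - ρ h) v‖ ≤ ‖ρ y - ρ h‖ * ‖v‖ := ContinuousLinearMap.le_opNorm _ _
        _ ≤ ε / 2 * (‖v‖ + 1) :=
          mul_le_mul hy.le (by linarith) (norm_nonneg _) (by positivity)
    have h3 := hC ε hε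
    rw [← hM] at h3
    calc (μ.prod μ) T ≤ (μ.prod μ) (⋃ q ∈ I ×ˢ (F ×ˢ F),
          nb ρ (q.1 * q.2.1 * q.1⁻¹) (3 * ε) ×ˢ nb ρ (q.1 * q.2.2 * q.1⁻¹) (3 * ε)) :=
          measure_mono hTsub
      _ ≤ ∑ q ∈ I ×ˢ (F ×ˢ F), (μ.prod μ)
          (nb ρ (q.1 * q.2.1 * q.1⁻¹) (3 * ε) ×ˢ nb ρ (q.1 * q.2.2 * q.1⁻¹) (3 * ε)) :=
          measure_biUnion_finset_le _ _
      _ = ∑ q ∈ I ×ˢ (F ×ˢ F), μ (nb ρ 1 (3 * ε)) * μ (nb ρ 1 (3 * ε)) := by
          refine Finset.sum_congr rfl fun q _ => ?_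
          rw [Measure.prod_prod, nb_measure ρ hi μ (q.1 * q.2.1 * q.1⁻¹),
            nb_measure ρ hi μ (q.1 * q.2.2 * q.1⁻¹)]
      _ = (I.card : ENNReal) * (F.card * F.card) *
          (μ (nb ρ 1 (3 * ε)) * μ (nb ρ 1 (3 * ε))) := by
          rw [Finset.sum_const, nsmul_eq_mul, Finset.card_product, Finset.card_product]
          push_cast
          rfl
      _ ≤ (I.card : ENNReal) * (F.card * F.card) * ((C * M) * (C * M)) := by gcongr
      _ = C * C * (((I.card : ENNReal) * F.card * M) * (F.card * M)) := by ring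
      _ ≤ C * C * (1 * μ {x | ‖ρ x v - v‖ ≤ ε / 2 * (‖v‖ + 1)}) := by gcongr
      _ = _ := by rw [one_mul]
  -- the limit
  have hlim : Tendsto (fun n : ℕ => μ {x | ‖ρ x v - v‖ ≤ 1 / ((n : ℝ) + 1)}) atTop (𝓝 0) := by
    have hcont : Continuous (fun x => ‖ρ x v - v‖) :=
      ((hc.clm_apply continuous_const).sub continuous_const).norm
    have h1 := tendsto_measure_iInter_atTop (μ := μ)
      (s := fun n : ℕ => {x | ‖ρ x v - v‖ ≤ 1 / ((n : ℝ) + 1)})
      (fun n => (isClosed_le hcont continuous_const).measurableSet.nullMeasurableSet)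
      (fun m n hmn x hx => by
        change ‖ρ x v - v‖ ≤ 1 / ((n : ℝ) + 1) at hx
        change ‖ρ x v - v‖ ≤ 1 / ((m : ℝ) + 1)
        refine hx.trans ?_
        have : (m : ℝ) ≤ n := by exact_mod_cast hmn
        exact one_div_le_one_div_of_le (by positivity) (by linarith))
      ⟨0, measure_ne_top _ _⟩
    have h2 : ⋂ n : ℕ, {x | ‖ρ x v - v‖ ≤ 1 / ((n : ℝ) + 1)} = {g | ρ g v = v} := by
      ext x
      simp only [mem_iInter]
      constructor
      · intro h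
        change ρ x v = v
        have h3 : ‖ρ x v - v‖ ≤ 0 := by
          refine ge_of_tendsto' tendsto_one_div_add_atTop_nhds_zero_nat fun n => h n
        exact sub_eq_zero.1 (norm_le_zero_iff.1 h3)
      · intro h n
        change ρ x v = v at h
        change ‖ρ x v - v‖ ≤ 1 / ((n : ℝ) + 1)
        rw [h, sub_self, norm_zero]
        positivity
    rw [h2, hS] at h1
    exact h1
  have hlim2 : Tendsto (fun n : ℕ => (C : ENNReal) * C *
      μ {x | ‖ρ x v - v‖ ≤ 1 / ((n : ℝ) + 1)}) atTop (𝓝 0) := by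
    have h1 := ENNReal.Tendsto.const_mul (a := (C : ENNReal) * C) hlim
      (Or.inr (ENNReal.mul_ne_top (ENNReal.natCast_ne_top _) (ENNReal.natCast_ne_top _)))
    rwa [mul_zero] at h1
  have hle : (μ.prod μ) T ≤ 0 := by
    refine ge_of_tendsto' hlim2 fun n => ?_
    have hv : 0 < ‖v‖ + 1 := by positivity
    have h1 := main (2 / ((n + 1) * (‖v‖ + 1))) (by positivity)
    have e : 2 / (((n : ℝ) + 1) * (‖v‖ + 1)) / 2 * (‖v‖ + 1) = 1 / ((n : ℝ) + 1) := by
      field_simp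
    rwa [e] at h1
  exact le_antisymm hle zero_le

end Pool.Agent.W5h52.UL
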