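import Pool.Agent.W5h52.UL.Defs

/-!
# (U8) almost every pair has no common invariant vectors besides the invariant ones
-/

set_option autoImplicit false

open MeasureTheory Set Function Filter Topology

namespace Pool.Agent.W5h52.UL

/-- The image of a compact group under a continuous isometric representation. -/
theorem cg_range {G : Type} [Group G] [TopologicalSpace G] [CompactSpace G]
    {E : Type} [NormedAddCommGroup E] [InnerProductSpace ℝ E]
    (ρ : G →* (E →L[ℝ] E)) (hρ : Continuous ρ) (hiso : ∀ g x, ‖ρ g x‖ = ‖x‖) :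
    CG (Set.range ρ) where
  closed := (isCompact_range hρ).isClosed
  one := ⟨1, map_one ρ⟩
  mul := by
    rintro _ ⟨a, rfl⟩ _ ⟨b, rfl⟩
    exact ⟨a * b, map_mul ρ a b⟩
  iso := by
    rintro _ ⟨a, rfl⟩ x
    exact hiso a x
  inv := by
    rintro _ ⟨a, rfl⟩
    refine ⟨ρ a⁻¹, ⟨a⁻¹, rfl⟩, ?_, ?_⟩
    · rw [← map_mul, mul_inv_cancel, map_one]
    · rw [← map_mul, inv_mul_cancel, map_one]

theorem rep : S_SLICE → S_NULL → S_CONN → S_REP := by
  intro hslice hnull hconn G _ _ _ _ _ _ _ _ _ μ _ _ E _ _ _ ρ hρ hiso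
  have hcg := cg_range ρ hρ hiso
  have hs := hslice E (Set.range ρ) hcg
  choose δ hδ hsl using hs
  obtain ⟨t, htU, htc, hcov⟩ := TopologicalSpace.countable_cover_nhdsWithin
    (f := fun v => Metric.ball v (δ v)) (s := {u : E | ∃ g, ρ g u ≠ u})
    fun v _ => mem_nhdsWithin_of_mem_nhds (Metric.ball_mem_nhds v (hδ v))
  have key : ∀ v ∈ t, ∀ᵐ z : G × G ∂(μ.prod μ),
      ¬ ∃ g, ρ (g⁻¹ * z.1 * g) v = v ∧ ρ (g⁻¹ * z.2 * g) v = v := by
    intro v hv
    rw [ae_iff]
    simp only [not_not]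
    refine hnull G μ E ρ hρ hiso v ?_
    let K : Subgroup G :=
      { carrier := {g | ρ g v = v}
        one_mem' := by simp
        mul_mem' := by
          intro a b ha hb
          simp only [Set.mem_ofPred_eq] at ha hb ⊢
          rw [map_mul, mul_apply_eq_comp, hb, ha]
        inv_mem' := by
          intro a ha
          simp only [Set.mem_ofPred_eq] at ha ⊢
          have h1 : ρ a⁻¹ (ρ a v) = v := by
            rw [← mul_apply_eq_comp, ← map_mul, inv_mul_cancel, map_one,
              one_apply_eq_self]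
          rwa [ha] at h1 }
    have hcl : IsClosed (K : Set G) := by
      have h2 : Continuous fun g => ρ g v := hρ.clm_apply continuous_const
      exact isClosed_eq h2 continuous_const
    have hne : K ≠ ⊤ := by
      intro h
      obtain ⟨g, hg⟩ := htU hv
      have h3 : g ∈ K := by rw [h]; trivial
      exact hg h3
    exact hconn G μ K hcl hne
  have hall := (ae_ball_iff htc).2 key
  filter_upwards [hall] with z hz u hu1 hu2
  by_contra hcon
  push Not at hcon
  obtain ⟨v, hv⟩ := Set.mem_iUnion.1 (hcov (show u ∈ {u : E | ∃ g, ρ g u ≠ u} from hcon))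
  obtain ⟨hvt, hvb⟩ := Set.mem_iUnion.1 hv
  obtain ⟨_, ⟨x, rfl⟩, g', _, hgg', hg'g, hst⟩ := hsl v u (by simpa [dist_eq_norm] using hvb)
  have hg'e : g' = ρ x⁻¹ := by
    calc g' = g' * (ρ x * ρ x⁻¹) := by rw [← map_mul, mul_inv_cancel, map_one, mul_one]
      _ = (g' * ρ x) * ρ x⁻¹ := (mul_assoc _ _ _).symm
      _ = ρ x⁻¹ := by rw [hg'g, one_mul]
  refine hz v hvt ⟨x, ?_, ?_⟩
  · have h4 := hst (ρ z.1) ⟨_, rfl⟩ hu1
    rw [hg'e, ← map_mul, ← map_mul] at h4
    exact h4
  · have h4 := hst (ρ z.2) ⟨_, rfl⟩ hu2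
    rw [hg'e, ← map_mul, ← map_mul] at h4
    exact h4

end Pool.Agent.W5h52.UL
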