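import Pool.Agent.W5h52.UL.Defs

/-! (U0) Elements of the Lie algebra are skew. -/

open MeasureTheory Set Function Filter Topology

namespace Pool.Agent.W5h52.UL

theorem skew : S_SKEW := by
  intro E _ _ _ H hH Z hZ x y
  have hcomplete : CompleteSpace E := FiniteDimensional.complete ℝ E
  -- isometries preserve inner products
  have hin : ∀ a ∈ H, ∀ x y : E, inner ℝ (a x) (a y) = inner ℝ x y := by
    intro a ha x y
    rw [real_inner_eq_norm_add_mul_self_sub_norm_mul_self_sub_norm_mul_self_div_two,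
      real_inner_eq_norm_add_mul_self_sub_norm_mul_self_sub_norm_mul_self_div_two, ← map_add,
      hH.iso a ha, hH.iso a ha, hH.iso a ha]
  have hd : HasDerivAt (fun t : ℝ => NormedSpace.exp (t • Z)) Z 0 := by
    have := hasDerivAt_exp_smul_const (𝕂 := ℝ) Z (0 : ℝ)
    simpa using this
  have hx : ∀ v : E, HasDerivAt (fun t : ℝ => NormedSpace.exp (t • Z) v) (Z v) 0 := by
    intro v
    have := hd.clm_apply (hasDerivAt_const (0 : ℝ) v)
    simpa using this
  have h1 : HasDerivAt (fun t : ℝ => inner ℝ (NormedSpace.exp (t • Z) x)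
      (NormedSpace.exp (t • Z) y)) (inner ℝ (NormedSpace.exp ((0 : ℝ) • Z) x) (Z y) +
        inner ℝ (Z x) (NormedSpace.exp ((0 : ℝ) • Z) y)) 0 := (hx x).inner ℝ (hx y)
  have h2 : (fun t : ℝ => inner ℝ (NormedSpace.exp (t • Z) x)
      (NormedSpace.exp (t • Z) y)) = fun _ => inner ℝ x y := by
    ext t
    exact hin _ (hZ t) x y
  rw [h2] at h1
  have h3 := h1.unique (hasDerivAt_const (0 : ℝ) (inner ℝ x y))
  simp only [zero_smul, NormedSpace.exp_zero, one_apply_eq_self] at h3
  linarith

end Pool.Agent.W5h52.UL
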