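import Pool.Agent.W5h52.UL.Defs

/-! (U5) slice property. -/

open MeasureTheory Set Function Filter Topology

namespace Pool.Agent.W5h52.UL

theorem CG.isCompact {E : Type} [NormedAddCommGroup E] [InnerProductSpace ℝ E]
    [FiniteDimensional ℝ E] {H : Set (E →L[ℝ] E)} (hH : CG H) : IsCompact H := by
  have : ProperSpace (E →L[ℝ] E) := FiniteDimensional.proper_real (E →L[ℝ] E)
  refine Metric.isCompact_of_isClosed_isBounded hH.closed ?_
  refine (Metric.isBounded_closedBall (x := (0 : E →L[ℝ] E)) (r := 1)).subset ?_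
  intro a ha
  rw [mem_closedBall_zero_iff]
  refine ContinuousLinearMap.opNorm_le_bound _ zero_le_one fun x => ?_
  rw [hH.iso a ha x, one_mul]

theorem slice : S_UNIQ → S_SLICE := by
  intro hU E _ _ _ H hH v
  obtain ⟨δ, hδ, hu⟩ := hU E H hH v
  refine ⟨δ, hδ, fun w hw => ?_⟩
  obtain ⟨g, hg, hmin⟩ := hH.isCompact.exists_isMinOn (f := fun a : E →L[ℝ] E => ‖w - a v‖)
    ⟨1, hH.one⟩ (by fun_prop)
  have hmin' : ∀ x ∈ H, ‖w - g v‖ ≤ ‖w - x v‖ := fun x hx => hmin hx
  obtain ⟨g', hg', h1, h2⟩ := hH.inv g hg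
  refine ⟨g, hg, g', hg', h1, h2, fun a ha haw => ?_⟩
  have e1 : ∀ x, g' (g x) = x := fun x => by
    have := congrArg (fun T : E →L[ℝ] E => T x) h2
    simpa using this
  have e2 : ∀ x, g (g' x) = x := fun x => by
    have := congrArg (fun T : E →L[ℝ] E => T x) h1
    simpa using this
  have key : ∀ x : E, ‖g' w - x‖ = ‖w - g x‖ := fun x => by
    have : g' w - x = g' (w - g x) := by rw [map_sub, e1]
    rw [this, hH.iso g' hg']
  have hdist : ‖g' w - v‖ = ‖w - g v‖ := key v
  refine hu (g' w) ?_ ?_ (g' * a * g) (hH.mul _ (hH.mul _ hg' _ ha) _ hg) ?_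
  · rw [hdist]
    refine lt_of_le_of_lt (hmin' 1 hH.one) ?_
    simpa using hw
  · intro x hx
    rw [hdist, key]
    exact hmin' (g * x) (hH.mul _ hg _ hx)
  · rw [hdist, key]
    have : g ((g' * a * g) v) = a (g v) := by
      show g (g' (a (g v))) = a (g v)
      rw [e2]
    rw [this]
    have h3 : w - a (g v) = a (w - g v) := by rw [map_sub, haw]
    rw [h3, hH.iso a ha]

end Pool.Agent.W5h52.UL
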