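import Pool.Agent.W5h52.UL.Defs

set_option autoImplicit false

/-!
# (U2) The Lie algebra is a subspace
-/

open MeasureTheory Set Function Filter Topology

namespace Pool.Agent.W5h52.UL

theorem tendsto_prod_exp {E : Type} [NormedAddCommGroup E] [InnerProductSpace ℝ E]
    [FiniteDimensional ℝ E] (X Y : E →L[ℝ] E) :
    Tendsto (fun k : ℕ => ((k : ℝ) + 1) •
      (NormedSpace.exp ((1 / ((k : ℝ) + 1)) • X) * NormedSpace.exp ((1 / ((k : ℝ) + 1)) • Y) - 1))
      atTop (𝓝 (X + Y)) := by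
  have : CompleteSpace E := FiniteDimensional.complete ℝ E
  have h1 : HasDerivAt (fun t : ℝ => NormedSpace.exp (t • X) * NormedSpace.exp (t • Y))
      (X + Y) 0 := by
    have h2 := (hasDerivAt_exp_smul_const (𝕂 := ℝ) X (0 : ℝ)).mul
      (hasDerivAt_exp_smul_const (𝕂 := ℝ) Y (0 : ℝ))
    refine HasDerivAt.congr_deriv h2 ?_
    simp only [zero_smul, NormedSpace.exp_zero, one_mul, mul_one]
  have h3 := h1.tendsto_slope_zero
  have h4 : Tendsto (fun k : ℕ => 1 / ((k : ℝ) + 1)) atTop (𝓝[≠] 0) := by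
    refine tendsto_nhdsWithin_iff.2 ⟨tendsto_one_div_add_atTop_nhds_zero_nat, ?_⟩
    exact Filter.Eventually.of_forall fun k => by
      have : (0 : ℝ) < (k : ℝ) + 1 := by positivity
      exact (one_div_pos.2 this).ne'
  refine (h3.comp h4).congr fun k => ?_
  simp only [Function.comp_apply, zero_add, zero_smul, NormedSpace.exp_zero, one_mul]
  rw [one_div, inv_inv]

/-- (U2) the Lie algebra is a subspace. -/
theorem subm : S_KEY → S_SUBM := by
  intro hK E _ _ _ H hH
  refine ⟨{ carrier := lie H, add_mem' := ?_, zero_mem' := ?_, smul_mem' := ?_ }, rfl⟩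
  · intro X Y hX hY
    refine hK E H hH (fun k : ℕ => NormedSpace.exp ((1 / ((k : ℝ) + 1)) • X) *
      NormedSpace.exp ((1 / ((k : ℝ) + 1)) • Y)) (fun k : ℕ => (k : ℝ) + 1) (X + Y)
      (fun k => hH.mul _ (hX _) _ (hY _)) ?_ (tendsto_prod_exp X Y)
    exact tendsto_atTop_add_const_right _ _ tendsto_natCast_atTop_atTop
  · intro t
    rw [smul_zero, NormedSpace.exp_zero]
    exact hH.one
  · intro c X hX t
    rw [smul_smul]
    exact hX _

end Pool.Agent.W5h52.UL
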