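import Pool.Agent.W5h52.UL.Defs
import Pool.Agent.Y495.KP.Rep

/-! Lemma (U9) for MP_5ca0ff_an: from finite dimensional representations to the theorem that almost
every pair generates a dense subgroup. -/

open MeasureTheory Set Function Filter Topology
open scoped ENNReal Pointwise

namespace Pool.Agent.W5h52.UL

section
variable {G : Type} [Group G]
  [TopologicalSpace G] [IsTopologicalGroup G] [CompactSpace G] [T2Space G]
  [SecondCountableTopology G] [MeasurableSpace G] [BorelSpace G]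
  (μ : Measure G) [μ.IsHaarMeasure] [IsProbabilityMeasure μ]

/-- The left regular representation on `L²(G)`. -/
noncomputable def lreg : G →* (Lp ℂ 2 μ ≃ₗᵢ[ℂ] Lp ℂ 2 μ) where
  toFun g :=
    { toFun := fun f => DomMulAct.mk g⁻¹ • f
      map_add' := fun f f' => smul_add _ f f'
      map_smul' := fun c f => smul_comm _ c f
      invFun := fun f => DomMulAct.mk g • f
      left_inv := fun f => by
        show DomMulAct.mk g • DomMulAct.mk g⁻¹ • f = f
        rw [smul_smul, ← DomMulAct.mk_mul, inv_mul_cancel, DomMulAct.mk_one, one_smul]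
      right_inv := fun f => by
        show DomMulAct.mk g⁻¹ • DomMulAct.mk g • f = f
        rw [smul_smul, ← DomMulAct.mk_mul, mul_inv_cancel, DomMulAct.mk_one, one_smul]
      norm_map' := fun f => DomMulAct.norm_smul_Lp _ f }
  map_one' := by
    ext1 f
    show DomMulAct.mk (1 : G)⁻¹ • f = f
    rw [inv_one, DomMulAct.mk_one, one_smul]
  map_mul' g h := by
    ext1 f
    show DomMulAct.mk (g * h)⁻¹ • f = DomMulAct.mk g⁻¹ • DomMulAct.mk h⁻¹ • f
    rw [smul_smul, ← DomMulAct.mk_mul, mul_inv_rev]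

theorem lreg_apply (g : G) (f : Lp ℂ 2 μ) : lreg μ g f = DomMulAct.mk g⁻¹ • f := rfl

theorem lreg_cont (f : Lp ℂ 2 μ) : Continuous fun g => lreg μ g f := by
  have : Fact ((2 : ℝ≥0∞) ≠ ∞) := ⟨by norm_num⟩
  have h : Continuous fun g : G => DomMulAct.mk g⁻¹ :=
    DomMulAct.continuous_mk.comp continuous_inv
  exact h.smul continuous_const

/-- finite dimensional invariant subspaces -/
def Inv (V : Submodule ℂ (Lp ℂ 2 μ)) : Prop :=
  FiniteDimensional ℂ V ∧ ∀ g, ∀ x ∈ V, lreg μ g x ∈ V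

/-- the restricted representation -/
noncomputable def rest (V : Submodule ℂ (Lp ℂ 2 μ)) (hV : Inv μ V) : G →* (V →L[ℂ] V) :=
  { toFun := fun g =>
      LinearMap.mkContinuous
        { toFun := fun x : V => (⟨lreg μ g x, hV.2 g x x.2⟩ : V)
          map_add' := fun x y => Subtype.ext (map_add (lreg μ g) (x : Lp ℂ 2 μ) y)
          map_smul' := fun c x => Subtype.ext (map_smul (lreg μ g) c (x : Lp ℂ 2 μ)) } 1
        (fun x => by
            rw [one_mul]
            show ‖lreg μ g x‖ ≤ ‖(x : Lp ℂ 2 μ)‖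
            rw [LinearIsometryEquiv.norm_map])
    map_one' := by
      refine ContinuousLinearMap.ext fun x => Subtype.ext ?_
      show lreg μ 1 (x : Lp ℂ 2 μ) = x
      rw [map_one]
      rfl
    map_mul' := fun g h => by
      refine ContinuousLinearMap.ext fun x => Subtype.ext ?_
      show lreg μ (g * h) x = lreg μ g (lreg μ h x)
      rw [map_mul]
      rfl }

theorem rest_apply (V : Submodule ℂ (Lp ℂ 2 μ)) (hV : Inv μ V) (g : G) (x : V) :
    ((rest μ V hV g x : V) : Lp ℂ 2 μ) = lreg μ g x := rfl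

theorem rest_cont (V : Submodule ℂ (Lp ℂ 2 μ)) (hV : Inv μ V) : Continuous (rest μ V hV) := by
  haveI := hV.1
  refine continuous_clm_apply.2 fun x => ?_
  exact (lreg_cont μ (x : Lp ℂ 2 μ)).subtype_mk _

theorem rest_norm (V : Submodule ℂ (Lp ℂ 2 μ)) (hV : Inv μ V) (g : G) (x : V) :
    ‖rest μ V hV g x‖ = ‖x‖ := by
  show ‖lreg μ g x‖ = ‖(x : Lp ℂ 2 μ)‖
  rw [LinearIsometryEquiv.norm_map]

/-- the complex version of `S_REP` -/
theorem rep_complex (hrep : S_REP) [ConnectedSpace G] (E : Type) [NormedAddCommGroup E]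
    [InnerProductSpace ℂ E] [FiniteDimensional ℂ E] (ρ : G →* (E →L[ℂ] E)) (hc : Continuous ρ)
    (hn : ∀ g x, ‖ρ g x‖ = ‖x‖) :
    ∀ᵐ z : G × G ∂(μ.prod μ), ∀ u : E, ρ z.1 u = u → ρ z.2 u = u → ∀ g, ρ g u = u := by
  haveI : FiniteDimensional ℝ E := FiniteDimensional.complexToReal E
  let ρ' : G →* (E →L[ℝ] E) :=
    { toFun := fun g => (ρ g).restrictScalars ℝ
      map_one' := by rw [map_one]; rfl
      map_mul' := fun g h => by rw [map_mul]; rfl }
  have hc' : Continuous ρ' := by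
    refine continuous_clm_apply.2 fun x => ?_
    exact continuous_clm_apply.1 hc x
  letI : InnerProductSpace ℝ E := InnerProductSpace.rclikeToReal ℂ E
  exact hrep G μ E ρ' hc' hn

/-- a countable family of invariant subspaces which is total -/
theorem exists_family : ∃ (C : Set (Lp ℂ 2 μ)) (V : C → Submodule ℂ (Lp ℂ 2 μ)), C.Countable ∧
    (∀ c, Inv μ (V c)) ∧ ∀ v : Lp ℂ 2 μ, (∀ c, ∀ x ∈ V c, inner ℂ x v = 0) → v = 0 := by
  have : Fact ((2 : ℝ≥0∞) ≠ ∞) := ⟨by norm_num⟩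
  let S : Set (Lp ℂ 2 μ) := {x | ∃ V, Inv μ V ∧ x ∈ V}
  obtain ⟨C, hCS, hCc, hCd⟩ := (TopologicalSpace.IsSeparable.of_separableSpace S).exists_countable_dense_subset
  choose V hV hmem using fun c : C => hCS c.2
  refine ⟨C, V, hCc, hV, fun v hv => ?_⟩
  by_contra hne
  obtain ⟨W, hW1, hW2, x, hxW, hx⟩ := Pool.Agent.Y495.KP.exists_fd μ (lreg μ) (lreg_cont μ) v hne
  have hxS : x ∈ S := ⟨W, ⟨hW1, hW2⟩, hxW⟩
  have hxc : x ∈ closure C := hCd hxS
  have hcl : IsClosed {y : Lp ℂ 2 μ | inner ℂ y v = 0} :=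
    isClosed_eq (continuous_id.inner continuous_const) continuous_const
  have hsub : C ⊆ {y : Lp ℂ 2 μ | inner ℂ y v = 0} := fun c hc => hv ⟨c, hc⟩ c (hmem ⟨c, hc⟩)
  exact hx (closure_minimal hsub hcl hxc)

theorem fixed_of_family {V : Submodule ℂ (Lp ℂ 2 μ)} (hV : Inv μ V) {a b : G}
    (hab : ∀ u : V, rest μ V hV a u = u → rest μ V hV b u = u → ∀ g, rest μ V hV g u = u)
    {f : Lp ℂ 2 μ} (ha : lreg μ a f = f) (hb : lreg μ b f = f) (g : G) :
    ∀ x ∈ V, inner ℂ x (lreg μ g f - f) = 0 := by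
  haveI := hV.1
  have inv_inner : ∀ (g : G) (x y : Lp ℂ 2 μ), inner ℂ x (lreg μ g y) = inner ℂ (lreg μ g⁻¹ x) y := by
    intro g x y
    rw [← LinearIsometryEquiv.inner_map_map (lreg μ g⁻¹) x (lreg μ g y)]
    congr 1
    show (lreg μ g⁻¹ * lreg μ g) y = y
    rw [← map_mul, inv_mul_cancel, map_one]
    rfl
  -- orthogonal projection
  let q : V := V.orthogonalProjection f
  have hq : ∀ x ∈ V, inner ℂ x (f - (q : Lp ℂ 2 μ)) = 0 := by
    intro x hx
    exact V.sub_starProjection_mem_orthogonal f x hx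
  have hfix : ∀ c : G, lreg μ c f = f → rest μ V hV c q = q := by
    intro c hc
    apply Subtype.ext
    rw [rest_apply]
    have hmem : lreg μ c (q : Lp ℂ 2 μ) ∈ V := hV.2 c _ q.2
    have h1 : ∀ x ∈ V, inner ℂ x (f - lreg μ c (q : Lp ℂ 2 μ)) = 0 := by
      intro x hx
      have : f - lreg μ c (q : Lp ℂ 2 μ) = lreg μ c (f - (q : Lp ℂ 2 μ)) := by
        rw [map_sub, hc]
      rw [this, inv_inner]
      exact hq _ (hV.2 _ _ hx)
    have h2 : (lreg μ c (q : Lp ℂ 2 μ) - q) ∈ V := V.sub_mem hmem q.2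
    have h3 : inner ℂ (lreg μ c (q : Lp ℂ 2 μ) - q) (lreg μ c (q : Lp ℂ 2 μ) - q) = (0 : ℂ) := by
      have e : lreg μ c (q : Lp ℂ 2 μ) - q = (f - q) - (f - lreg μ c (q : Lp ℂ 2 μ)) := by abel
      conv_lhs => rw [show inner ℂ (lreg μ c (q : Lp ℂ 2 μ) - q) (lreg μ c (q : Lp ℂ 2 μ) - q)
        = inner ℂ (lreg μ c (q : Lp ℂ 2 μ) - q) ((f - q) - (f - lreg μ c (q : Lp ℂ 2 μ)))
        from by rw [← e]]
      rw [inner_sub_right, hq _ h2, h1 _ h2, sub_zero]
    exact sub_eq_zero.1 (inner_self_eq_zero.1 h3)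
  have hqg := hab q (hfix a ha) (hfix b hb)
  intro x hx
  have h4 : ∀ c : G, ∀ x ∈ V, inner ℂ x f = inner ℂ x (q : Lp ℂ 2 μ) := by
    intro c x hx
    have := hq x hx
    rw [inner_sub_right] at this
    exact sub_eq_zero.1 this
  rw [inner_sub_right, inv_inner, h4 1 _ (hV.2 _ _ hx), h4 1 x hx, ← inv_inner]
  have h5 : lreg μ g (q : Lp ℂ 2 μ) = q := by
    rw [← rest_apply μ V hV, hqg g]
  rw [h5, sub_self]

/-- a proper closed subgroup fixes a non-invariant vector of `L²` -/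
theorem exists_indicator (K : Subgroup G) (hK : IsClosed (K : Set G)) (hne : K ≠ ⊤) :
    ∃ f : Lp ℂ 2 μ, (∀ a ∈ K, lreg μ a f = f) ∧ ∃ g, lreg μ g f ≠ f := by
  obtain ⟨g0, hg0⟩ : ∃ g0, g0 ∉ K := by
    by_contra h
    push Not at h
    exact hne (eq_top_iff.2 fun x _ => h x)
  have hKc : IsCompact (K : Set G) := hK.isCompact
  obtain ⟨O1, O2, hO1, hO2, hK1, hg2, hd⟩ : SeparatedNhds (K : Set G) {g0} :=
    SeparatedNhds.of_isCompact_isCompact hKc isCompact_singleton
      (Set.disjoint_singleton_right.2 hg0)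
  obtain ⟨V, hV, hKV⟩ := compact_open_separated_mul_right hKc hO1 hK1
  let M : Set G := (K : Set G) * interior V
  have hMo : IsOpen M := isOpen_interior.mul_left
  have hM1 : M ⊆ O1 := (Set.mul_subset_mul_left interior_subset).trans hKV
  have h1M : (1 : G) ∈ M := ⟨1, K.one_mem, 1, mem_interior_iff_mem_nhds.2 hV, one_mul 1⟩
  have hMinv : ∀ a ∈ K, ∀ x, a⁻¹ * x ∈ M ↔ x ∈ M := by
    intro a ha x
    constructor
    · rintro ⟨k, hk, v, hv, h⟩
      refine ⟨a * k, K.mul_mem ha hk, v, hv, ?_⟩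
      show a * k * v = x
      rw [mul_assoc]
      have h' : k * v = a⁻¹ * x := h
      rw [h', mul_inv_cancel_left]
    · rintro ⟨k, hk, v, hv, h⟩
      refine ⟨a⁻¹ * k, K.mul_mem (K.inv_mem ha) hk, v, hv, ?_⟩
      show a⁻¹ * k * v = a⁻¹ * x
      rw [mul_assoc]
      have h' : k * v = x := h
      rw [h']
  have hMm : MeasurableSet M := hMo.measurableSet
  let f : Lp ℂ 2 μ := indicatorConstLp 2 hMm (measure_ne_top μ M) (1 : ℂ)
  have hf : f =ᵐ[μ] M.indicator fun _ => (1 : ℂ) := indicatorConstLp_coeFn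
  have hgf : ∀ g, lreg μ g f =ᵐ[μ] fun x => M.indicator (fun _ => (1 : ℂ)) (g⁻¹ * x) := by
    intro g
    have h1 := DomMulAct.smul_Lp_ae_eq (DomMulAct.mk g⁻¹) f
    have h2 : ∀ᵐ x ∂μ, f (g⁻¹ * x) = M.indicator (fun _ => (1 : ℂ)) (g⁻¹ * x) :=
      (measurePreserving_mul_left μ g⁻¹).quasiMeasurePreserving.ae hf
    filter_upwards [h1, h2] with x hx1 hx2
    rw [lreg_apply, hx1]
    exact hx2
  refine ⟨f, fun a ha => ?_, g0, fun heq => ?_⟩
  · apply Lp.ext
    filter_upwards [hgf a, hf] with x h1 h2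
    rw [h1, h2]
    by_cases hx : x ∈ M
    · rw [indicator_of_mem hx, indicator_of_mem ((hMinv a ha x).2 hx)]
    · rw [indicator_of_notMem hx, indicator_of_notMem (fun h => hx ((hMinv a ha x).1 h))]
  · have h1 := hgf g0
    rw [heq] at h1
    have h2 : ∀ᵐ x ∂μ, ¬ (x ∈ O2 ∧ g0⁻¹ * x ∈ M) := by
      filter_upwards [h1, hf] with x hx1 hx2 hx
      have hxM : x ∉ M := fun h => (Set.disjoint_left.1 hd) (hM1 h) hx.1
      rw [hx2, indicator_of_notMem hxM, indicator_of_mem hx.2] at hx1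
      exact zero_ne_one hx1
    have ho : IsOpen {x | x ∈ O2 ∧ g0⁻¹ * x ∈ M} :=
      hO2.inter (hMo.preimage (continuous_const.mul continuous_id))
    have hpos : 0 < μ {x | x ∈ O2 ∧ g0⁻¹ * x ∈ M} :=
      ho.measure_pos μ ⟨g0, hg2 rfl, by rw [inv_mul_cancel]; exact h1M⟩
    have h3 : μ {x | x ∈ O2 ∧ g0⁻¹ * x ∈ M} = 0 := by
      have := ae_iff.1 h2
      simpa using this
    exact hpos.ne' h3

end

set_option maxHeartbeats 400000 in
theorem ulam : S_REP → S_UL := by
  intro hrep G _ _ _ _ _ _ _ _ _ μ _ _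
  obtain ⟨C, V, hC, hV, htot⟩ := exists_family μ
  haveI : Countable C := hC.to_subtype
  have h1 : ∀ᵐ z : G × G ∂(μ.prod μ), ∀ c : C, ∀ u : V c,
      rest μ (V c) (hV c) z.1 u = u → rest μ (V c) (hV c) z.2 u = u →
        ∀ g, rest μ (V c) (hV c) g u = u := by
    rw [ae_all_iff]
    intro c
    haveI := (hV c).1
    exact rep_complex μ hrep (V c) (rest μ (V c) (hV c)) (rest_cont μ (V c) (hV c))
      (rest_norm μ (V c) (hV c))
  filter_upwards [h1] with z hz
  let K : Subgroup G := (Subgroup.closure ({z.1, z.2} : Set G)).topologicalClosure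
  have hKc : IsClosed (K : Set G) := Subgroup.isClosed_topologicalClosure _
  by_contra hnd
  have hKne : K ≠ ⊤ := by
    intro h
    apply hnd
    intro x
    have : x ∈ K := h ▸ Subgroup.mem_top x
    exact this
  obtain ⟨f, hf, g, hg⟩ := exists_indicator μ K hKc hKne
  have hz1 : z.1 ∈ K := Subgroup.le_topologicalClosure _ (Subgroup.subset_closure (by simp))
  have hz2 : z.2 ∈ K := Subgroup.le_topologicalClosure _ (Subgroup.subset_closure (by simp))
  apply hg
  have := htot (lreg μ g f - f) fun c x hx =>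
    fixed_of_family μ (hV c) (hz c) (hf _ hz1) (hf _ hz2) g x hx
  exact sub_eq_zero.1 this

end Pool.Agent.W5h52.UL
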