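import Mathlib

/-! Interface for the Schreier-Ulam-Auerbach theorem: in a compact connected second countable group
almost every pair generates a dense subgroup. -/

open MeasureTheory Set Function Filter Topology

namespace Pool.Agent.W5h52.UL

section
variable {E : Type} [NormedAddCommGroup E] [InnerProductSpace ℝ E]

/-- closed groups of linear isometries of a Euclidean space -/
structure CG (H : Set (E →L[ℝ] E)) : Prop where
  closed : IsClosed H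
  one : (1 : E →L[ℝ] E) ∈ H
  mul : ∀ a ∈ H, ∀ b ∈ H, a * b ∈ H
  iso : ∀ a ∈ H, ∀ x, ‖a x‖ = ‖x‖
  inv : ∀ a ∈ H, ∃ b ∈ H, a * b = 1 ∧ b * a = 1

/-- the Lie algebra of `H` -/
def lie (H : Set (E →L[ℝ] E)) : Set (E →L[ℝ] E) :=
  {Z | ∀ t : ℝ, NormedSpace.exp (t • Z) ∈ H}
end

/-- (U0) elements of the Lie algebra are skew. -/
def S_SKEW : Prop := ∀ (E : Type) [NormedAddCommGroup E] [InnerProductSpace ℝ E]
  [FiniteDimensional ℝ E] (H : Set (E →L[ℝ] E)), CG H → ∀ Z ∈ lie H, ∀ x y : E,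
  inner ℝ (Z x) y = - inner ℝ x (Z y)

/-- (U1) von Neumann's lemma. -/
def S_KEY : Prop := ∀ (E : Type) [NormedAddCommGroup E] [InnerProductSpace ℝ E]
  [FiniteDimensional ℝ E] (H : Set (E →L[ℝ] E)), CG H →
  ∀ (y : ℕ → E →L[ℝ] E) (c : ℕ → ℝ) (Z : E →L[ℝ] E), (∀ k, y k ∈ H) → Tendsto c atTop atTop →
  Tendsto (fun k => c k • (y k - 1)) atTop (𝓝 Z) → Z ∈ lie H

/-- (U2) the Lie algebra is a subspace. -/
def S_SUBM : Prop := ∀ (E : Type) [NormedAddCommGroup E] [InnerProductSpace ℝ E]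
  [FiniteDimensional ℝ E] (H : Set (E →L[ℝ] E)), CG H →
  ∃ L : Submodule ℝ (E →L[ℝ] E), (L : Set (E →L[ℝ] E)) = lie H

/-- (U3) points of the orbit of `v` near `v`. -/
def S_LOC : Prop := ∀ (E : Type) [NormedAddCommGroup E] [InnerProductSpace ℝ E]
  [FiniteDimensional ℝ E] (H : Set (E →L[ℝ] E)), CG H → ∀ v : E,
  ∃ C : ℝ, 0 < C ∧ ∀ ε : ℝ, 0 < ε → ∃ δ : ℝ, 0 < δ ∧ ∀ y ∈ H, ‖y v - v‖ < δ →
    ∃ Z ∈ lie H, ‖Z‖ < ε ∧ ‖Z‖ ≤ C * ‖Z v‖ ∧ NormedSpace.exp Z v = y v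

/-- (U3a) the same near the identity (with `y` near `1`). -/
def S_LOC1 : Prop := ∀ (E : Type) [NormedAddCommGroup E] [InnerProductSpace ℝ E]
  [FiniteDimensional ℝ E] (H : Set (E →L[ℝ] E)), CG H → ∀ v : E,
  ∃ C : ℝ, 0 < C ∧ ∀ ε : ℝ, 0 < ε → ∃ δ : ℝ, 0 < δ ∧ ∀ y ∈ H, ‖y - 1‖ < δ →
    ∃ Z ∈ lie H, ‖Z‖ < ε ∧ ‖Z‖ ≤ C * ‖Z v‖ ∧ NormedSpace.exp Z v = y v

/-- (U4) uniqueness of the nearest point of the orbit. -/
def S_UNIQ : Prop := ∀ (E : Type) [NormedAddCommGroup E] [InnerProductSpace ℝ E]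
  [FiniteDimensional ℝ E] (H : Set (E →L[ℝ] E)), CG H → ∀ v : E,
  ∃ δ : ℝ, 0 < δ ∧ ∀ w : E, ‖w - v‖ < δ → (∀ x ∈ H, ‖w - v‖ ≤ ‖w - x v‖) →
    ∀ y ∈ H, ‖w - y v‖ = ‖w - v‖ → y v = v

/-- (U5) slice property. -/
def S_SLICE : Prop := ∀ (E : Type) [NormedAddCommGroup E] [InnerProductSpace ℝ E]
  [FiniteDimensional ℝ E] (H : Set (E →L[ℝ] E)), CG H → ∀ v : E,
  ∃ δ : ℝ, 0 < δ ∧ ∀ w : E, ‖w - v‖ < δ → ∃ g ∈ H, ∃ g' ∈ H, g * g' = 1 ∧ g' * g = 1 ∧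
    ∀ a ∈ H, a w = w → (g' * a * g) v = v

/-- (U6) the union of the conjugates of `S × S`, `S` the stabiliser of `v`, is a null set if `S` is
a null set. -/
def S_NULL : Prop := ∀ (G : Type) [Group G]
  [TopologicalSpace G] [IsTopologicalGroup G] [CompactSpace G] [T2Space G]
  [SecondCountableTopology G] [MeasurableSpace G] [BorelSpace G]
  (μ : Measure G) [μ.IsHaarMeasure] [IsProbabilityMeasure μ]
  (E : Type) [NormedAddCommGroup E] [InnerProductSpace ℝ E] [FiniteDimensional ℝ E]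
  (ρ : G →* (E →L[ℝ] E)), Continuous ρ → (∀ g x, ‖ρ g x‖ = ‖x‖) → ∀ v : E,
  μ {g | ρ g v = v} = 0 →
  (μ.prod μ) {z | ∃ g, ρ (g⁻¹ * z.1 * g) v = v ∧ ρ (g⁻¹ * z.2 * g) v = v} = 0

/-- (U7) proper stabilisers are null sets in connected groups. -/
def S_CONN : Prop := ∀ (G : Type) [Group G]
  [TopologicalSpace G] [IsTopologicalGroup G] [CompactSpace G] [T2Space G]
  [SecondCountableTopology G] [ConnectedSpace G] [MeasurableSpace G] [BorelSpace G]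
  (μ : Measure G) [μ.IsHaarMeasure] [IsProbabilityMeasure μ]
  (K : Subgroup G), IsClosed (K : Set G) → K ≠ ⊤ → μ (K : Set G) = 0

/-- (U8) for a fixed finite dimensional representation. -/
def S_REP : Prop := ∀ (G : Type) [Group G]
  [TopologicalSpace G] [IsTopologicalGroup G] [CompactSpace G] [T2Space G]
  [SecondCountableTopology G] [ConnectedSpace G] [MeasurableSpace G] [BorelSpace G]
  (μ : Measure G) [μ.IsHaarMeasure] [IsProbabilityMeasure μ]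
  (E : Type) [NormedAddCommGroup E] [InnerProductSpace ℝ E] [FiniteDimensional ℝ E]
  (ρ : G →* (E →L[ℝ] E)), Continuous ρ → (∀ g x, ‖ρ g x‖ = ‖x‖) →
  ∀ᵐ z : G × G ∂(μ.prod μ), ∀ u : E, ρ z.1 u = u → ρ z.2 u = u → ∀ g, ρ g u = u

/-- (U9) the theorem. -/
def S_UL : Prop := ∀ (G : Type) [Group G]
  [TopologicalSpace G] [IsTopologicalGroup G] [CompactSpace G] [T2Space G]
  [SecondCountableTopology G] [ConnectedSpace G] [MeasurableSpace G] [BorelSpace G]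
  (μ : Measure G) [μ.IsHaarMeasure] [IsProbabilityMeasure μ],
  ∀ᵐ z : G × G ∂(μ.prod μ), Dense (Subgroup.closure ({z.1, z.2} : Set G) : Set G)

end Pool.Agent.W5h52.UL
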