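import Mathlib
import Pool.Agent.W5h52.UL.Defs

/-! (U4) uniqueness of the nearest point of the orbit. -/

set_option autoImplicit false

open MeasureTheory Set Function Filter Topology

namespace Pool.Agent.W5h52.UL

namespace Uniq

variable {E : Type} [NormedAddCommGroup E] [InnerProductSpace ℝ E] [FiniteDimensional ℝ E]

theorem exp_small : ∃ ε : ℝ, 0 < ε ∧ ∀ X : E →L[ℝ] E, ‖X‖ < ε →
    ‖NormedSpace.exp X - 1‖ < 1 / 4 := by
  have : CompleteSpace E := FiniteDimensional.complete ℝ E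
  have hexp : HasFDerivAt (NormedSpace.exp : (E →L[ℝ] E) → (E →L[ℝ] E))
      (1 : (E →L[ℝ] E) →L[ℝ] (E →L[ℝ] E)) 0 := hasFDerivAt_exp_zero
  have hc := hexp.continuousAt
  rw [Metric.continuousAt_iff] at hc
  obtain ⟨ε, hε, h⟩ := hc (1 / 4) (by norm_num)
  refine ⟨ε, hε, fun X hX => ?_⟩
  have h1 := h (x := X) (by simpa using hX)
  rwa [NormedSpace.exp_zero, dist_eq_norm] at h1

theorem deriv_inner (Z : E →L[ℝ] E) (w x : E) (t : ℝ) :
    HasDerivAt (fun u : ℝ => inner ℝ w (NormedSpace.exp (u • Z) x))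
      (inner ℝ w (NormedSpace.exp (t • Z) (Z x))) t := by
  have : CompleteSpace E := FiniteDimensional.complete ℝ E
  have h1 := hasDerivAt_exp_smul_const (𝕂 := ℝ) Z t
  have h2 := (ContinuousLinearMap.apply ℝ E x).hasFDerivAt.comp_hasDerivAt t h1
  have h3 := (innerSL ℝ w).hasFDerivAt.comp_hasDerivAt t h2
  exact h3

theorem exp_comm (Z : E →L[ℝ] E) (t : ℝ) :
    NormedSpace.exp (t • Z) * Z = Z * NormedSpace.exp (t • Z) := by
  have : CompleteSpace E := FiniteDimensional.complete ℝ E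
  exact (hasDerivAt_exp_smul_const (𝕂 := ℝ) Z t).unique (hasDerivAt_exp_smul_const' (𝕂 := ℝ) Z t)

end Uniq

theorem uniq : S_LOC → S_SKEW → S_UNIQ := by
  intro hloc hskew E _ _ _ H hH v
  have : CompleteSpace E := FiniteDimensional.complete ℝ E
  obtain ⟨C, hC, hC1⟩ := hloc E H hH v
  obtain ⟨ε, hε, hexp⟩ := Uniq.exp_small (E := E)
  obtain ⟨δ, hδ, hδ1⟩ := hC1 ε hε
  refine ⟨min (δ / 2) (1 / (4 * C)), by positivity, fun w hw hmin y hy hyw => ?_⟩
  have hw1 : ‖w - v‖ < δ / 2 := lt_of_lt_of_le hw (min_le_left _ _)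
  have hw2 : ‖w - v‖ < 1 / (4 * C) := lt_of_lt_of_le hw (min_le_right _ _)
  have hyv : ‖y v - v‖ < δ := by
    have e : y v - v = (w - v) - (w - y v) := by abel
    rw [e]
    calc ‖(w - v) - (w - y v)‖ ≤ ‖w - v‖ + ‖w - y v‖ := norm_sub_le _ _
      _ < δ := by rw [hyw]; linarith
  obtain ⟨Z, hZ, hZε, hZC, hZv⟩ := hδ1 y hy hyv
  by_contra hne
  have hZv0 : Z v ≠ 0 := by
    intro h0
    rw [h0, norm_zero, mul_zero] at hZC
    have hZ0 : Z = 0 := norm_le_zero_iff.1 hZC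
    apply hne
    rw [← hZv, hZ0, NormedSpace.exp_zero]
    rfl
  have hpos : 0 < ‖Z v‖ := norm_pos_iff.2 hZv0
  set g : ℝ → ℝ := fun t => inner ℝ w (NormedSpace.exp (t • Z) v) with hg
  have hd1 : ∀ t, HasDerivAt g (inner ℝ w (NormedSpace.exp (t • Z) (Z v))) t :=
    fun t => Uniq.deriv_inner Z w v t
  have hd1' : deriv g = fun t => inner ℝ w (NormedSpace.exp (t • Z) (Z v)) :=
    funext fun t => (hd1 t).deriv
  have hd2 : ∀ t, deriv (deriv g) t = inner ℝ w (NormedSpace.exp (t • Z) (Z (Z v))) := by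
    intro t
    rw [hd1']
    exact (Uniq.deriv_inner Z w (Z v) t).deriv
  have hcw : C * ‖w - v‖ ≤ 1 / 4 := by
    rw [lt_div_iff₀ (by positivity)] at hw2
    nlinarith
  have hneg : ∀ t ∈ interior (Icc (0 : ℝ) 1), deriv^[2] g t < 0 := by
    intro t ht
    rw [interior_Icc] at ht
    change deriv (deriv g) t < 0
    rw [hd2]
    have e1 : NormedSpace.exp (t • Z) (Z (Z v)) = Z (NormedSpace.exp (t • Z) (Z v)) := by
      have := congrArg (fun A : E →L[ℝ] E => A (Z v)) (Uniq.exp_comm Z t)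
      exact this
    have e2 : inner ℝ w (Z (NormedSpace.exp (t • Z) (Z v))) =
        - inner ℝ (Z w) (NormedSpace.exp (t • Z) (Z v)) := by
      have := hskew E H hH Z hZ w (NormedSpace.exp (t • Z) (Z v))
      rw [this, neg_neg]
    rw [e1, e2]
    set b := NormedSpace.exp (t • Z) (Z v) with hb
    have hbn : ‖b‖ = ‖Z v‖ := hH.iso _ (hZ t) _
    have hba : ‖b - Z v‖ ≤ 1 / 4 * ‖Z v‖ := by
      have hn : ‖t • Z‖ < ε := by
        rw [norm_smul, Real.norm_eq_abs, abs_of_pos ht.1]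
        have := ht.2
        have h0 := norm_nonneg Z
        nlinarith
      have h1 := (hexp _ hn).le
      have h2 : b - Z v = (NormedSpace.exp (t • Z) - 1) (Z v) := rfl
      rw [h2]
      exact (ContinuousLinearMap.le_opNorm _ _).trans (by gcongr)
    have h3 : inner ℝ (Z w) b = inner ℝ (Z v) (Z v) + inner ℝ (Z v) (b - Z v) +
        inner ℝ (Z (w - v)) b := by
      rw [inner_sub_right, map_sub, inner_sub_left]
      ring
    have h4 : inner ℝ (Z v) (Z v) = ‖Z v‖ * ‖Z v‖ := real_inner_self_eq_norm_mul_norm _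
    have h5 : |inner ℝ (Z v) (b - Z v)| ≤ ‖Z v‖ * (1 / 4 * ‖Z v‖) :=
      (abs_real_inner_le_norm _ _).trans (by gcongr)
    have h6 : |inner ℝ (Z (w - v)) b| ≤ (1 / 4 * ‖Z v‖) * ‖Z v‖ := by
      refine (abs_real_inner_le_norm _ _).trans ?_
      rw [hbn]
      have h7 : ‖Z (w - v)‖ ≤ 1 / 4 * ‖Z v‖ := by
        calc ‖Z (w - v)‖ ≤ ‖Z‖ * ‖w - v‖ := Z.le_opNorm _
          _ ≤ (C * ‖Z v‖) * ‖w - v‖ := by gcongr
          _ = (C * ‖w - v‖) * ‖Z v‖ := by ring
          _ ≤ 1 / 4 * ‖Z v‖ := by gcongr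
      gcongr
    have h8 := neg_abs_le (inner ℝ (Z v) (b - Z v))
    have h9 := neg_abs_le (inner ℝ (Z (w - v)) b)
    have h10 : 0 < ‖Z v‖ * ‖Z v‖ := by positivity
    rw [h3, h4]
    nlinarith
  have hconc : StrictConcaveOn ℝ (Icc (0 : ℝ) 1) g :=
    strictConcaveOn_of_deriv2_neg (convex_Icc 0 1)
      (fun t _ => (hd1 t).continuousAt.continuousWithinAt) hneg
  have hle : ∀ t, g t ≤ g 0 := by
    intro t
    have h1 := hmin _ (hZ t)
    have h2 : ‖w - v‖ ^ 2 ≤ ‖w - NormedSpace.exp (t • Z) v‖ ^ 2 := by gcongr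
    rw [norm_sub_sq_real, norm_sub_sq_real, hH.iso _ (hZ t)] at h2
    have h3 : g 0 = inner ℝ w v := by
      simp only [hg, zero_smul, NormedSpace.exp_zero]
      rfl
    rw [h3]
    change inner ℝ w (NormedSpace.exp (t • Z) v) ≤ _
    linarith
  have h10 : g 1 = g 0 := by
    have h2 : ‖w - y v‖ ^ 2 = ‖w - v‖ ^ 2 := by rw [hyw]
    rw [norm_sub_sq_real, norm_sub_sq_real, hH.iso _ hy] at h2
    have h3 : g 0 = inner ℝ w v := by
      simp only [hg, zero_smul, NormedSpace.exp_zero]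
      rfl
    have h4 : g 1 = inner ℝ w (y v) := by
      simp only [hg, one_smul, hZv]
    rw [h3, h4]
    linarith
  have h11 := hconc.2 (show (0 : ℝ) ∈ Icc (0 : ℝ) 1 by simp) (show (1 : ℝ) ∈ Icc (0 : ℝ) 1 by simp)
    zero_ne_one (show (0 : ℝ) < 1 / 2 by norm_num) (show (0 : ℝ) < 1 / 2 by norm_num) (by norm_num)
  rw [h10] at h11
  simp only [smul_eq_mul] at h11
  have h12 := hle (1 / 2 * 0 + 1 / 2 * 1)
  linarith

end Pool.Agent.W5h52.UL
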